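import Mathlib

/-!
# Three-gender stable marriage with lexicographically cyclic preferences

Men, women and dogs are each indexed by `Fin n`.
-/

namespace Pool.Agent.LexCyc

/-- A lexicographically cyclic instance of size `n`.  Every agent has a strict order on each of the
other two sets, given by an injective (hence bijective) rank function; rank `0` is the most
preferred. -/
structure LexInst (n : ℕ) where
  /-- `manWoman u w` is the rank of woman `w` in the order of man `u` on women. -/
  manWoman : Fin n → Fin n → Fin n
  /-- `manDog u d` is the rank of dog `d` in the order of man `u` on dogs. -/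
  manDog : Fin n → Fin n → Fin n
  /-- `womanDog w d` is the rank of dog `d` in the order of woman `w` on dogs. -/
  womanDog : Fin n → Fin n → Fin n
  /-- `womanMan w u` is the rank of man `u` in the order of woman `w` on men. -/
  womanMan : Fin n → Fin n → Fin n
  /-- `dogMan d u` is the rank of man `u` in the order of dog `d` on men. -/
  dogMan : Fin n → Fin n → Fin n
  /-- `dogWoman d w` is the rank of woman `w` in the order of dog `d` on women. -/
  dogWoman : Fin n → Fin n → Fin n
  manWoman_inj : ∀ u, Function.Injective (manWoman u)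
  manDog_inj : ∀ u, Function.Injective (manDog u)
  womanDog_inj : ∀ w, Function.Injective (womanDog w)
  womanMan_inj : ∀ w, Function.Injective (womanMan w)
  dogMan_inj : ∀ d, Function.Injective (dogMan d)
  dogWoman_inj : ∀ d, Function.Injective (dogWoman d)

namespace LexInst

variable {n : ℕ} (I : LexInst n)

/-- Man `u` strictly prefers the pair `p = (w, d)` to the pair `q = (w', d')`: first by the woman,
then by the dog. -/
def ManPrefers (u : Fin n) (p q : Fin n × Fin n) : Prop :=
  I.manWoman u p.1 < I.manWoman u q.1 ∨ (p.1 = q.1 ∧ I.manDog u p.2 < I.manDog u q.2)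

/-- Woman `w` strictly prefers the pair `p = (u, d)` to the pair `q = (u', d')`: first by the dog,
then by the man. -/
def WomanPrefers (w : Fin n) (p q : Fin n × Fin n) : Prop :=
  I.womanDog w p.2 < I.womanDog w q.2 ∨ (p.2 = q.2 ∧ I.womanMan w p.1 < I.womanMan w q.1)

/-- Dog `d` strictly prefers the pair `p = (u, w)` to the pair `q = (u', w')`: first by the man,
then by the woman. -/
def DogPrefers (d : Fin n) (p q : Fin n × Fin n) : Prop :=
  I.dogMan d p.1 < I.dogMan d q.1 ∨ (p.1 = q.1 ∧ I.dogWoman d p.2 < I.dogWoman d q.2)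

end LexInst

/-- A matching: a set of triples (man, woman, dog) in which every agent occurs exactly once. -/
def IsMatching {n : ℕ} (M : Set (Fin n × Fin n × Fin n)) : Prop :=
  (∀ u : Fin n, ∃! t : Fin n × Fin n × Fin n, t ∈ M ∧ t.1 = u) ∧
  (∀ w : Fin n, ∃! t : Fin n × Fin n × Fin n, t ∈ M ∧ t.2.1 = w) ∧
  (∀ d : Fin n, ∃! t : Fin n × Fin n × Fin n, t ∈ M ∧ t.2.2 = d)

/-- The triple `t = (u, w, d)` blocks `M`: each of its members strictly prefers the other two
members of `t` to its two partners in `M` (the other two members of the triple of `M` containing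
it). -/
def LexInst.Blocks {n : ℕ} (I : LexInst n) (M : Set (Fin n × Fin n × Fin n))
    (t : Fin n × Fin n × Fin n) : Prop :=
  (∃ s ∈ M, s.1 = t.1 ∧ I.ManPrefers t.1 (t.2.1, t.2.2) (s.2.1, s.2.2)) ∧
  (∃ s ∈ M, s.2.1 = t.2.1 ∧ I.WomanPrefers t.2.1 (t.1, t.2.2) (s.1, s.2.2)) ∧
  (∃ s ∈ M, s.2.2 = t.2.2 ∧ I.DogPrefers t.2.2 (t.1, t.2.1) (s.1, s.2.1))

/-- A stable matching of the instance. -/
def LexInst.IsStable {n : ℕ} (I : LexInst n) (M : Set (Fin n × Fin n × Fin n)) : Prop :=
  IsMatching M ∧ ∀ t, ¬ I.Blocks M t

end Pool.Agent.LexCyc
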