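import Mathlib

/-!
# The four-by-four-by-four gadget and its local lemma

Types of agents: `0` = men, `1` = women, `2` = dogs.  The *primary* order of an agent of type `t`
ranks the agents of type `t + 1` (mod 3), its *secondary* order ranks the agents of type `t + 2`.
A gadget has four agents `0, 1, 2, 3` of each type.
-/

namespace Pool.Agent.LexCyc

/-- `pos t i x` is the position (smaller is better) in the primary order of agent `i` of type `t`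
of a gadget, of the agent `x < 4` of the same gadget; `x = 4` stands for the block of adjacent
outside agents. -/
def pos (t i x : ℕ) : ℕ :=
  [0, 2, 1, 4, 3,
   2, 4, 1, 0, 3,
   0, 1, 4, 2, 3,
   3, 1, 2, 0, 4,
   1, 3, 2, 0, 4,
   1, 0, 3, 2, 4,
   2, 3, 1, 0, 4,
   0, 3, 1, 2, 4,
   4, 0, 2, 1, 3,
   4, 2, 0, 1, 3,
   2, 4, 0, 1, 3,
   2, 1, 3, 0, 4].getD (20 * t + 5 * i + x) 0

/-- `sec t i x` is the position of the agent `x < 4` of the same gadget in the secondary order of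
agent `i` of type `t`. -/
def sec (t i x : ℕ) : ℕ :=
  [2, 3, 1, 0,
   2, 3, 1, 0,
   3, 0, 1, 2,
   3, 0, 2, 1,
   3, 2, 1, 0,
   2, 3, 0, 1,
   1, 2, 3, 0,
   0, 1, 2, 3,
   2, 0, 3, 1,
   1, 2, 0, 3,
   0, 3, 2, 1,
   0, 3, 2, 1].getD (16 * t + 4 * i + x) 0

/-- The three stable states of a gadget: in state `c < 3` the primary partner of agent `i` of type
`t` is `stv c (4 * t + i)`. -/
def stv (c s : ℕ) : ℕ :=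
  [3, 2, 0, 1,
   2, 1, 3, 0,
   0, 3, 2, 1,
   2, 1, 0, 3,
   2, 0, 1, 3,
   1, 0, 2, 3,
   0, 3, 2, 1,
   3, 0, 1, 2,
   3, 2, 1, 0].getD (12 * c + s) 0

/-- Preference inside a gadget.  `val (4 * t + i)` is the primary partner of agent `i` of type `t`
(`4` if it is outside the gadget).  The proposition says that the agent `i` of type `t` strictly
prefers the primary partner `x` together with the secondary partner `y` (both in the gadget) to its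
present partners. -/
def Pref (val : ℕ → ℕ) (t i x y : ℕ) : Prop :=
  pos t i x < pos t i (val (4 * t + i)) ∨
    (val (4 * t + i) = x ∧ ∀ z < 4, val (4 * ((t + 2) % 3) + z) = i → sec t i y < sec t i z)

/-- The local view of a gadget in a stable matching. -/
structure LocalView (val : ℕ → ℕ) : Prop where
  le4 : ∀ s < 12, val s ≤ 4
  inj : ∀ s < 12, ∀ s' < 12, s ≠ s' → s / 4 = s' / 4 → val s = val s' → ¬ val s < 4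
  clo : ∀ s < 12, val s < 4 → val (4 * ((s / 4 + 1) % 3) + val s) < 4 →
    val (4 * ((s / 4 + 2) % 3) + val (4 * ((s / 4 + 1) % 3) + val s)) = s % 4
  nb : ∀ m < 4, ∀ w < 4, ∀ d < 4, ¬ (Pref val 0 m w d ∧ Pref val 1 w d m ∧ Pref val 2 d m w)

/-- Certificate trees. -/
inductive Tr
  | br (s : ℕ) (a b c d f : Tr)
  | inj (s s' : ℕ)
  | clo (s : ℕ)
  | blk (m w d : ℕ)
  | st (c : ℕ)

/-- Conservative version of `Pref` for partially known views (`5` means not yet known). -/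
def prefB (e : ℕ → ℕ) (t i x y : ℕ) : Bool :=
  (e (4 * t + i) != 5) && (Nat.blt (pos t i x) (pos t i (e (4 * t + i))) ||
    ((e (4 * t + i) == x) &&
      ((List.range 4).all (fun z =>
          !((e (4 * ((t + 2) % 3) + z) == i) || (e (4 * ((t + 2) % 3) + z) == 5)) ||
            Nat.blt (sec t i y) (sec t i z)) ||
        (List.range 4).any (fun z =>
          (e (4 * ((t + 2) % 3) + z) == i) && Nat.blt (sec t i y) (sec t i z)))))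

/-- Update of a partial view. -/
def upd (e : ℕ → ℕ) (s v : ℕ) : ℕ → ℕ := fun k => bif k == s then v else e k

/-- The certificate checker. -/
def check : Tr → (ℕ → ℕ) → Bool
  | .br s a b c d f, e =>
      Nat.blt s 12 && check a (upd e s 0) && check b (upd e s 1) && check c (upd e s 2) &&
        check d (upd e s 3) && check f (upd e s 4)
  | .inj s s', e =>
      Nat.blt s 12 && Nat.blt s' 12 && (s != s') && (s / 4 == s' / 4) && (e s == e s') &&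
        Nat.blt (e s) 4
  | .clo s, e =>
      Nat.blt s 12 && Nat.blt (e s) 4 && Nat.blt (e (4 * ((s / 4 + 1) % 3) + e s)) 4 &&
        (e (4 * ((s / 4 + 2) % 3) + e (4 * ((s / 4 + 1) % 3) + e s)) != 5) &&
        (e (4 * ((s / 4 + 2) % 3) + e (4 * ((s / 4 + 1) % 3) + e s)) != s % 4)
  | .blk m w d, e =>
      Nat.blt m 4 && Nat.blt w 4 && Nat.blt d 4 &&
        prefB e 0 m w d && prefB e 1 w d m && prefB e 2 d m w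
  | .st c, e => Nat.blt c 3 && (List.range 12).all (fun s => e s == stv c s)

/-- The certificate. -/
def cert : Tr :=
  (.br 2 (.br 11 (.br 4 (.br 0 (.inj 0 2) (.blk 0 0 3) (.blk 0 0 3) (.blk 0 0 3) (.blk 0 0 3)) (.br
  0 (.inj 0 2) (.blk 0 0 3) (.blk 0 0 3) (.blk 0 0 3) (.blk 0 0 3)) (.br 0 (.inj 0 2) (.blk 0 0 3)
  (.blk 0 0 3) (.blk 0 0 3) (.blk 0 0 3)) (.clo 2) (.br 0 (.inj 0 2) (.blk 0 0 3) (.blk 0 0 3) (.blk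
  0 0 3) (.blk 0 0 3))) (.br 1 (.inj 1 2) (.br 4 (.blk 1 0 3) (.blk 1 0 3) (.blk 1 0 3) (.clo 2)
  (.blk 1 0 3)) (.br 6 (.clo 11) (.clo 11) (.clo 11) (.br 7 (.br 3 (.inj 3 2) (.br 8 (.br 0 (.inj 0
  2) (.inj 0 3) (.inj 0 1) (.br 5 (.inj 5 7) (.br 9 (.inj 9 8) (.inj 9 11) (.clo 3) (.br 4 (.inj 4
  7) (.inj 4 5) (.br 10 (.inj 10 8) (.inj 10 11) (.st 0) (.inj 10 9) (.blk 2 0 0)) (.inj 4 6) (.blk
  2 0 1)) (.clo 3)) (.blk 0 1 0) (.inj 5 6) (.blk 0 1 0)) (.blk 1 3 0)) (.inj 8 11) (.clo 7) (.clo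
  7) (.br 0 (.inj 0 2) (.inj 0 3) (.inj 0 1) (.clo 0) (.blk 1 3 0))) (.inj 3 1) (.br 8 (.blk 1 3 0)
  (.inj 8 11) (.blk 1 3 0) (.blk 1 3 0) (.blk 1 3 0)) (.blk 3 2 3)) (.blk 1 3 3) (.br 8 (.blk 1 3 0)
  (.inj 8 11) (.blk 1 3 0) (.blk 1 3 0) (.blk 1 3 0)) (.inj 7 6) (.blk 1 3 3)) (.clo 11)) (.br 7
  (.clo 11) (.clo 11) (.clo 11) (.br 3 (.inj 3 2) (.br 8 (.blk 3 3 0) (.inj 8 11) (.blk 3 3 0) (.br
  5 (.br 9 (.blk 3 1 1) (.inj 9 11) (.br 10 (.blk 3 3 2) (.inj 10 11) (.inj 10 9) (.inj 10 8) (.blk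
  3 3 2)) (.inj 9 8) (.blk 3 1 1)) (.blk 3 3 0) (.blk 3 1 3) (.inj 5 7) (.blk 3 1 3)) (.blk 3 3 0))
  (.br 8 (.blk 3 3 0) (.inj 8 11) (.blk 3 3 0) (.br 5 (.clo 5) (.blk 3 3 0) (.blk 3 1 0) (.inj 5 7)
  (.blk 3 1 0)) (.blk 3 3 0)) (.inj 3 1) (.br 4 (.blk 3 0 3) (.blk 3 0 3) (.blk 3 0 3) (.inj 4 7)
  (.blk 3 0 3))) (.clo 11)) (.br 4 (.blk 1 0 3) (.blk 1 0 3) (.blk 1 0 3) (.clo 2) (.blk 1 0 3)))
  (.br 4 (.clo 11) (.clo 11) (.clo 11) (.br 3 (.inj 3 2) (.br 7 (.br 0 (.inj 0 2) (.inj 0 3) (.br 6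
  (.inj 6 7) (.blk 0 2 3) (.blk 0 2 3) (.inj 6 4) (.blk 0 2 3)) (.br 6 (.inj 6 7) (.blk 0 2 3) (.blk
  0 2 3) (.inj 6 4) (.blk 0 2 3)) (.br 6 (.inj 6 7) (.blk 0 2 3) (.blk 0 2 3) (.inj 6 4) (.blk 0 2
  3))) (.blk 3 3 3) (.br 8 (.blk 3 3 0) (.br 1 (.inj 1 2) (.inj 1 3) (.br 5 (.clo 3) (.blk 1 3 0)
  (.inj 5 7) (.inj 5 4) (.blk 1 3 0)) (.clo 8) (.br 5 (.clo 3) (.blk 1 3 0) (.inj 5 7) (.inj 5 4)
  (.blk 1 3 0))) (.inj 8 11) (.br 5 (.br 9 (.blk 3 1 1) (.blk 3 1 1) (.inj 9 11) (.inj 9 8) (.blk 3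
  1 1)) (.blk 3 3 0) (.inj 5 7) (.inj 5 4) (.blk 3 1 3)) (.blk 3 3 0)) (.inj 7 4) (.blk 3 3 3)) (.br
  5 (.br 8 (.blk 3 1 0) (.br 1 (.inj 1 2) (.br 6 (.inj 6 5) (.blk 1 2 3) (.blk 1 2 3) (.inj 6 4)
  (.blk 1 2 3)) (.inj 1 3) (.clo 5) (.clo 5)) (.inj 8 11) (.clo 5) (.blk 3 1 0)) (.br 9 (.blk 3 1 1)
  (.blk 3 1 1) (.inj 9 11) (.clo 5) (.blk 3 1 1)) (.blk 3 1 3) (.inj 5 4) (.blk 3 1 3)) (.br 0 (.inj
  0 2) (.br 6 (.blk 0 2 3) (.blk 0 2 3) (.blk 0 2 3) (.inj 6 4) (.blk 0 2 3)) (.br 6 (.blk 0 2 3)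
  (.blk 0 2 3) (.blk 0 2 3) (.inj 6 4) (.blk 0 2 3)) (.inj 0 3) (.br 6 (.blk 0 2 3) (.blk 0 2 3)
  (.blk 0 2 3) (.inj 6 4) (.blk 0 2 3))) (.blk 3 0 3)) (.clo 11)) (.br 4 (.br 8 (.clo 2) (.clo 2)
  (.br 3 (.inj 3 2) (.br 7 (.inj 7 4) (.blk 3 3 0) (.blk 3 3 0) (.blk 3 3 0) (.blk 3 3 0)) (.br 7
  (.inj 7 4) (.blk 3 3 0) (.blk 3 3 0) (.blk 3 3 0) (.blk 3 3 0)) (.br 7 (.inj 7 4) (.clo 11) (.clo
  11) (.br 1 (.inj 1 2) (.blk 1 3 0) (.blk 1 3 0) (.inj 1 3) (.blk 1 3 0)) (.clo 11)) (.blk 3 0 0))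
  (.inj 8 11) (.clo 2)) (.br 9 (.clo 2) (.clo 2) (.br 10 (.br 0 (.inj 0 2) (.blk 0 0 2) (.blk 0 0 2)
  (.blk 0 0 2) (.blk 0 0 2)) (.br 0 (.inj 0 2) (.blk 0 0 2) (.blk 0 0 2) (.blk 0 0 2) (.blk 0 0 2))
  (.inj 10 9) (.inj 10 11) (.br 0 (.inj 0 2) (.blk 0 0 2) (.blk 0 0 2) (.blk 0 0 2) (.blk 0 0 2)))
  (.inj 9 11) (.clo 2)) (.br 10 (.clo 2) (.clo 2) (.br 8 (.br 1 (.inj 1 2) (.blk 1 0 0) (.br 6 (.clo
  1) (.blk 1 2 0) (.inj 6 4) (.clo 1) (.blk 1 2 0)) (.br 7 (.clo 1) (.blk 1 3 0) (.inj 7 4) (.blk 1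
  3 0) (.blk 1 3 0)) (.blk 1 0 0)) (.br 9 (.br 3 (.inj 3 2) (.br 5 (.blk 3 1 1) (.clo 3) (.inj 5 4)
  (.blk 3 1 1) (.blk 3 1 1)) (.br 5 (.blk 3 1 1) (.blk 3 1 1) (.inj 5 4) (.blk 3 1 1) (.blk 3 1 1))
  (.br 7 (.clo 3) (.clo 3) (.inj 7 4) (.br 1 (.inj 1 2) (.br 5 (.br 6 (.inj 6 5) (.br 0 (.inj 0 2)
  (.inj 0 1) (.st 1) (.inj 0 3) (.blk 1 2 1)) (.inj 6 4) (.inj 6 7) (.blk 1 2 1)) (.blk 1 0 0) (.inj
  5 4) (.inj 5 7) (.blk 1 0 0)) (.br 5 (.clo 5) (.blk 1 3 0) (.inj 5 4) (.inj 5 7) (.blk 1 3 0))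
  (.inj 1 3) (.br 5 (.clo 5) (.blk 1 0 0) (.inj 5 4) (.inj 5 7) (.blk 1 0 0))) (.blk 3 3 1)) (.blk 3
  0 3)) (.inj 9 8) (.inj 9 10) (.inj 9 11) (.br 3 (.inj 3 2) (.br 5 (.blk 3 1 1) (.clo 3) (.inj 5 4)
  (.blk 3 1 1) (.blk 3 1 1)) (.br 5 (.blk 3 1 1) (.blk 3 1 1) (.inj 5 4) (.blk 3 1 1) (.blk 3 1 1))
  (.br 7 (.clo 3) (.clo 3) (.inj 7 4) (.br 1 (.inj 1 2) (.br 6 (.blk 1 0 0) (.br 0 (.inj 0 2) (.inj
  0 1) (.clo 0) (.inj 0 3) (.blk 1 2 1)) (.inj 6 4) (.inj 6 7) (.blk 1 2 1)) (.br 5 (.clo 5) (.blk 1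
  3 0) (.inj 5 4) (.inj 5 7) (.blk 1 3 0)) (.inj 1 3) (.br 5 (.clo 5) (.blk 1 0 0) (.inj 5 4) (.inj
  5 7) (.blk 1 0 0))) (.blk 3 3 1)) (.blk 3 0 3))) (.inj 8 10) (.inj 8 11) (.br 1 (.inj 1 2) (.blk 1
  0 0) (.br 6 (.clo 1) (.blk 1 2 0) (.inj 6 4) (.clo 1) (.blk 1 2 0)) (.br 7 (.clo 1) (.blk 1 3 0)
  (.inj 7 4) (.blk 1 3 0) (.blk 1 3 0)) (.blk 1 0 0))) (.inj 10 11) (.clo 2)) (.clo 2) (.br 9 (.blk
  2 0 1) (.blk 2 0 1) (.clo 9) (.inj 9 11) (.blk 2 0 1))) (.br 4 (.br 0 (.inj 0 2) (.blk 0 0 3)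
  (.blk 0 0 3) (.blk 0 0 3) (.blk 0 0 3)) (.br 0 (.inj 0 2) (.blk 0 0 3) (.blk 0 0 3) (.blk 0 0 3)
  (.blk 0 0 3)) (.br 0 (.inj 0 2) (.blk 0 0 3) (.blk 0 0 3) (.blk 0 0 3) (.blk 0 0 3)) (.clo 2) (.br
  0 (.inj 0 2) (.blk 0 0 3) (.blk 0 0 3) (.blk 0 0 3) (.blk 0 0 3)))) (.br 9 (.br 5 (.blk 2 1 1)
  (.clo 2) (.blk 2 1 1) (.blk 2 1 1) (.blk 2 1 1)) (.br 5 (.blk 2 1 1) (.clo 2) (.blk 2 1 1) (.blk 2
  1 1) (.blk 2 1 1)) (.br 5 (.clo 9) (.br 4 (.br 7 (.inj 7 4) (.inj 7 5) (.br 6 (.inj 6 4) (.inj 6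
  5) (.inj 6 7) (.br 11 (.br 0 (.clo 6) (.inj 0 2) (.blk 0 0 3) (.blk 0 0 3) (.blk 0 0 3)) (.br 1
  (.clo 6) (.inj 1 2) (.br 8 (.blk 1 3 0) (.inj 8 11) (.inj 8 9) (.blk 1 3 0) (.blk 1 3 0)) (.clo 6)
  (.blk 1 0 3)) (.inj 11 9) (.br 3 (.clo 6) (.inj 3 2) (.br 8 (.blk 2 0 0) (.br 1 (.blk 1 3 0) (.inj
  1 2) (.inj 1 3) (.clo 4) (.blk 1 3 0)) (.inj 8 9) (.inj 8 11) (.blk 2 0 0)) (.clo 6) (.blk 3 0 3))
  (.blk 2 0 3)) (.br 11 (.br 0 (.clo 11) (.inj 0 2) (.blk 0 0 3) (.blk 0 0 3) (.blk 0 0 3)) (.br 1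
  (.blk 1 2 3) (.inj 1 2) (.clo 11) (.clo 11) (.blk 1 0 3)) (.inj 11 9) (.br 3 (.blk 3 2 3) (.inj 3
  2) (.clo 11) (.clo 11) (.blk 3 0 3)) (.blk 2 0 3))) (.br 6 (.inj 6 4) (.inj 6 5) (.br 11 (.br 0
  (.clo 7) (.inj 0 2) (.blk 0 0 3) (.blk 0 0 3) (.blk 0 0 3)) (.br 3 (.blk 3 0 3) (.inj 3 2) (.blk 3
  2 3) (.clo 3) (.blk 3 0 3)) (.inj 11 9) (.br 3 (.clo 7) (.inj 3 2) (.clo 7) (.br 8 (.blk 2 0 0)
  (.br 1 (.blk 1 3 0) (.inj 1 2) (.blk 1 3 0) (.inj 1 3) (.blk 1 3 0)) (.inj 8 9) (.inj 8 11) (.blk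
  2 0 0)) (.blk 3 0 3)) (.blk 2 0 3)) (.inj 6 7) (.br 11 (.br 0 (.clo 7) (.inj 0 2) (.blk 0 0 3)
  (.blk 0 0 3) (.blk 0 0 3)) (.br 3 (.blk 3 0 3) (.inj 3 2) (.blk 3 2 3) (.clo 3) (.blk 3 0 3))
  (.inj 11 9) (.br 3 (.clo 7) (.inj 3 2) (.clo 7) (.br 8 (.blk 2 0 0) (.br 1 (.blk 1 3 0) (.inj 1 2)
  (.blk 1 3 0) (.inj 1 3) (.blk 1 3 0)) (.inj 8 9) (.inj 8 11) (.blk 2 0 0)) (.blk 3 0 3)) (.blk 2 0
  3))) (.br 11 (.br 0 (.clo 11) (.inj 0 2) (.blk 0 0 3) (.blk 0 0 3) (.blk 0 0 3)) (.br 1 (.blk 1 3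
  3) (.inj 1 2) (.blk 1 3 3) (.clo 11) (.blk 1 0 3)) (.inj 11 9) (.br 3 (.blk 3 3 3) (.inj 3 2)
  (.blk 3 3 3) (.clo 11) (.blk 3 0 3)) (.blk 2 0 3))) (.inj 4 5) (.br 8 (.blk 2 0 0) (.br 11 (.br 0
  (.clo 11) (.inj 0 2) (.blk 0 0 3) (.blk 0 0 3) (.blk 0 0 3)) (.inj 11 8) (.inj 11 9) (.br 3 (.clo
  11) (.inj 3 2) (.br 10 (.blk 2 0 2) (.inj 10 8) (.inj 10 9) (.inj 10 11) (.blk 2 0 2)) (.br 10
  (.blk 2 0 2) (.inj 10 8) (.inj 10 9) (.inj 10 11) (.blk 2 0 2)) (.blk 3 0 3)) (.blk 2 0 3)) (.inj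
  8 9) (.br 11 (.br 0 (.clo 11) (.inj 0 2) (.blk 0 0 3) (.blk 0 0 3) (.blk 0 0 3)) (.br 3 (.blk 3 0
  3) (.inj 3 2) (.br 10 (.blk 2 0 2) (.inj 10 11) (.inj 10 9) (.inj 10 8) (.blk 2 0 2)) (.br 10
  (.blk 2 0 2) (.inj 10 11) (.inj 10 9) (.inj 10 8) (.blk 2 0 2)) (.blk 3 0 3)) (.inj 11 9) (.inj 11
  8) (.blk 2 0 3)) (.blk 2 0 0)) (.br 3 (.br 11 (.clo 3) (.clo 3) (.inj 11 9) (.br 6 (.br 10 (.blk 3
  2 2) (.blk 3 2 2) (.inj 10 9) (.inj 10 11) (.blk 3 2 2)) (.inj 6 5) (.br 10 (.blk 3 2 2) (.blk 3 2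
  2) (.inj 10 9) (.inj 10 11) (.blk 3 2 2)) (.inj 6 4) (.br 10 (.blk 3 2 2) (.blk 3 2 2) (.inj 10 9)
  (.inj 10 11) (.blk 3 2 2))) (.clo 3)) (.inj 3 2) (.br 11 (.br 6 (.blk 3 2 3) (.inj 6 5) (.blk 3 2
  3) (.inj 6 4) (.blk 3 2 3)) (.br 6 (.blk 3 2 3) (.inj 6 5) (.blk 3 2 3) (.inj 6 4) (.blk 3 2 3))
  (.inj 11 9) (.clo 4) (.blk 2 0 3)) (.br 1 (.br 11 (.clo 1) (.br 7 (.br 8 (.blk 1 3 0) (.inj 8 11)
  (.inj 8 9) (.blk 1 3 0) (.blk 1 3 0)) (.inj 7 5) (.br 8 (.blk 1 3 0) (.inj 8 11) (.inj 8 9) (.blk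
  1 3 0) (.blk 1 3 0)) (.inj 7 4) (.blk 3 3 3)) (.inj 11 9) (.clo 1) (.blk 2 0 3)) (.inj 1 2) (.br
  11 (.br 6 (.blk 1 2 3) (.inj 6 5) (.blk 1 2 3) (.inj 6 4) (.blk 1 2 3)) (.clo 4) (.inj 11 9) (.clo
  4) (.blk 2 0 3)) (.inj 1 3) (.br 11 (.blk 1 0 3) (.clo 4) (.inj 11 9) (.clo 4) (.blk 1 0 3))) (.br
  11 (.blk 3 0 3) (.blk 3 0 3) (.inj 11 9) (.clo 4) (.blk 2 0 3))) (.blk 2 0 1)) (.clo 9) (.clo 9)
  (.clo 9)) (.br 5 (.blk 2 1 1) (.clo 2) (.blk 2 1 1) (.blk 2 1 1) (.blk 2 1 1)) (.br 5 (.blk 2 1 1)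
  (.clo 2) (.blk 2 1 1) (.blk 2 1 1) (.blk 2 1 1))) (.br 5 (.br 9 (.blk 2 1 1) (.blk 2 1 1) (.br 6
  (.inj 6 5) (.br 8 (.blk 2 1 0) (.br 1 (.clo 5) (.br 11 (.blk 1 2 3) (.inj 11 8) (.inj 11 9) (.br
  10 (.br 3 (.blk 3 2 2) (.inj 3 1) (.inj 3 2) (.br 4 (.inj 4 5) (.inj 4 6) (.blk 2 0 2) (.clo 4)
  (.blk 2 0 2)) (.blk 3 2 2)) (.inj 10 8) (.inj 10 9) (.inj 10 11) (.br 0 (.br 4 (.inj 4 5) (.inj 4
  6) (.blk 2 0 2) (.clo 0) (.blk 0 0 2)) (.inj 0 1) (.inj 0 2) (.blk 0 2 2) (.blk 0 2 2))) (.blk 1 2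
  3)) (.inj 1 2) (.clo 5) (.clo 5)) (.inj 8 9) (.br 1 (.blk 1 2 0) (.blk 1 2 0) (.inj 1 2) (.br 3
  (.clo 5) (.br 0 (.br 4 (.inj 4 5) (.inj 4 6) (.br 10 (.blk 2 0 2) (.blk 2 0 2) (.inj 10 9) (.inj
  10 8) (.blk 2 0 2)) (.br 11 (.br 7 (.inj 7 5) (.inj 7 6) (.br 10 (.inj 10 11) (.st 2) (.inj 10 9)
  (.inj 10 8) (.blk 1 3 0)) (.inj 7 4) (.blk 1 3 3)) (.clo 0) (.inj 11 9) (.inj 11 8) (.blk 2 0 3))
  (.br 10 (.blk 2 0 2) (.blk 2 0 2) (.inj 10 9) (.inj 10 8) (.blk 2 0 2))) (.inj 0 3) (.inj 0 2)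
  (.inj 0 1) (.br 10 (.br 7 (.inj 7 5) (.inj 7 6) (.clo 1) (.blk 2 3 2) (.blk 2 3 2)) (.blk 0 2 2)
  (.inj 10 9) (.inj 10 8) (.blk 0 2 2))) (.inj 3 2) (.inj 3 1) (.clo 5)) (.blk 1 2 0)) (.blk 2 1 0))
  (.clo 9) (.clo 9) (.clo 9)) (.blk 2 1 1) (.blk 2 1 1)) (.br 9 (.blk 2 1 1) (.blk 2 1 1) (.clo 5)
  (.blk 2 1 1) (.blk 2 1 1)) (.br 10 (.blk 2 1 2) (.blk 2 1 2) (.clo 5) (.blk 2 1 2) (.blk 2 1 2))
  (.br 9 (.blk 2 1 1) (.blk 2 1 1) (.br 6 (.clo 9) (.br 8 (.blk 2 1 0) (.br 11 (.br 0 (.clo 5) (.blk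
  0 2 3) (.inj 0 2) (.blk 0 2 3) (.blk 0 2 3)) (.inj 11 8) (.inj 11 9) (.br 3 (.blk 3 2 3) (.br 7
  (.br 1 (.clo 7) (.inj 1 3) (.inj 1 2) (.br 4 (.inj 4 7) (.inj 4 6) (.br 10 (.blk 2 0 2) (.inj 10
  8) (.inj 10 9) (.inj 10 11) (.blk 2 0 2)) (.inj 4 5) (.br 10 (.blk 2 0 2) (.inj 10 8) (.inj 10 9)
  (.inj 10 11) (.blk 2 0 2))) (.clo 7)) (.inj 7 6) (.br 1 (.blk 1 3 0) (.inj 1 3) (.inj 1 2) (.clo
  8) (.blk 1 3 0)) (.inj 7 5) (.blk 3 3 3)) (.inj 3 2) (.clo 5) (.blk 3 2 3)) (.blk 2 1 3)) (.inj 8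
  9) (.br 1 (.blk 1 2 0) (.blk 1 2 0) (.inj 1 2) (.br 3 (.blk 3 1 0) (.clo 8) (.inj 3 2) (.inj 3 1)
  (.blk 3 1 0)) (.blk 1 2 0)) (.blk 2 1 0)) (.clo 9) (.inj 6 5) (.clo 9)) (.blk 2 1 1) (.blk 2 1 1))
  (.br 9 (.blk 2 1 1) (.blk 2 1 1) (.br 10 (.blk 2 1 2) (.blk 2 1 2) (.inj 10 9) (.blk 2 1 2) (.blk
  2 1 2)) (.blk 2 1 1) (.blk 2 1 1))) (.br 9 (.br 5 (.blk 2 1 1) (.blk 2 1 1) (.blk 2 1 1) (.blk 2 1
  1) (.blk 2 1 1)) (.br 5 (.blk 2 1 1) (.blk 2 1 1) (.blk 2 1 1) (.blk 2 1 1) (.blk 2 1 1)) (.br 7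
  (.clo 9) (.br 5 (.blk 2 1 1) (.inj 5 7) (.blk 2 1 1) (.blk 2 1 1) (.blk 2 1 1)) (.clo 9) (.clo 9)
  (.clo 9)) (.br 5 (.blk 2 1 1) (.blk 2 1 1) (.blk 2 1 1) (.blk 2 1 1) (.blk 2 1 1)) (.br 5 (.blk 2
  1 1) (.blk 2 1 1) (.blk 2 1 1) (.blk 2 1 1) (.blk 2 1 1))) (.br 5 (.br 9 (.blk 2 1 1) (.blk 2 1 1)
  (.br 8 (.blk 2 1 0) (.br 1 (.clo 5) (.br 4 (.inj 4 5) (.clo 4) (.br 6 (.inj 6 5) (.clo 6) (.inj 6
  4) (.blk 2 1 1) (.blk 2 1 1)) (.br 6 (.inj 6 5) (.clo 6) (.blk 2 1 1) (.inj 6 4) (.blk 2 1 1))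
  (.br 10 (.blk 2 0 2) (.inj 10 8) (.inj 10 9) (.blk 2 0 2) (.blk 2 0 2))) (.clo 5) (.clo 5) (.clo
  5)) (.inj 8 9) (.br 3 (.clo 5) (.br 4 (.inj 4 5) (.clo 4) (.br 6 (.inj 6 5) (.clo 6) (.inj 6 4)
  (.blk 2 1 1) (.blk 2 1 1)) (.br 6 (.inj 6 5) (.clo 6) (.blk 2 1 1) (.inj 6 4) (.blk 2 1 1)) (.br
  10 (.blk 2 0 2) (.blk 2 0 2) (.inj 10 9) (.inj 10 8) (.blk 2 0 2))) (.clo 5) (.clo 5) (.clo 5))
  (.blk 2 1 0)) (.blk 2 1 1) (.blk 2 1 1)) (.br 9 (.blk 2 1 1) (.blk 2 1 1) (.clo 5) (.blk 2 1 1)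
  (.blk 2 1 1)) (.br 10 (.blk 2 1 2) (.blk 2 1 2) (.clo 5) (.blk 2 1 2) (.blk 2 1 2)) (.br 9 (.blk 2
  1 1) (.blk 2 1 1) (.br 8 (.blk 2 1 0) (.br 11 (.br 0 (.clo 5) (.br 4 (.blk 0 0 3) (.blk 0 0 3)
  (.blk 0 0 3) (.inj 4 5) (.blk 0 0 3)) (.clo 5) (.clo 5) (.clo 5)) (.inj 11 8) (.inj 11 9) (.br 3
  (.clo 5) (.br 7 (.br 1 (.clo 7) (.inj 1 3) (.clo 7) (.br 4 (.inj 4 7) (.clo 4) (.br 6 (.inj 6 7)
  (.clo 6) (.inj 6 4) (.inj 6 5) (.blk 2 1 1)) (.inj 4 5) (.br 10 (.blk 2 0 2) (.inj 10 8) (.inj 10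
  9) (.inj 10 11) (.blk 2 0 2))) (.clo 7)) (.blk 2 1 1) (.br 1 (.blk 1 3 0) (.inj 1 3) (.blk 1 3 0)
  (.clo 8) (.blk 1 3 0)) (.inj 7 5) (.blk 3 3 3)) (.clo 5) (.clo 5) (.clo 5)) (.blk 2 1 3)) (.inj 8
  9) (.br 3 (.blk 3 1 0) (.clo 8) (.blk 3 1 0) (.br 7 (.br 1 (.blk 1 3 0) (.blk 1 3 0) (.blk 1 3 0)
  (.inj 1 3) (.blk 1 3 0)) (.blk 2 1 1) (.clo 8) (.inj 7 5) (.clo 8)) (.blk 3 1 0)) (.blk 2 1 0))
  (.blk 2 1 1) (.blk 2 1 1)) (.br 9 (.blk 2 1 1) (.blk 2 1 1) (.br 10 (.blk 2 1 2) (.blk 2 1 2)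
  (.inj 10 9) (.blk 2 1 2) (.blk 2 1 2)) (.blk 2 1 1) (.blk 2 1 1))))

theorem cert_ok : check cert (fun _ => 5) = true := by
  decide +kernel


/-- The partial view `e` agrees with the view `val`. -/
def Agree (e val : ℕ → ℕ) : Prop := ∀ s < 12, e s ≠ 5 → e s = val s

theorem Agree.upd {e val : ℕ → ℕ} (h : Agree e val) {s v : ℕ} (hv : val s = v) :
    Agree (upd e s v) val := by
  intro k hk hk5
  unfold LexCyc.upd at hk5 ⊢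
  by_cases hks : (k == s) = true
  · simp only [hks, cond_true]
    rw [beq_iff_eq] at hks
    rw [hks, hv]
  · simp only [Bool.not_eq_true] at hks
    simp only [hks, cond_false] at hk5 ⊢
    exact h k hk hk5

theorem prefB_sound {e val : ℕ → ℕ} (h : Agree e val) (hL : LocalView val) {t i x y : ℕ}
    (ht : t < 3) (hi : i < 4) (hp : prefB e t i x y = true) : Pref val t i x y := by
  unfold prefB at hp
  have hs : 4 * t + i < 12 := by omega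
  rw [Bool.and_eq_true] at hp
  obtain ⟨h5, hp⟩ := hp
  have h5' : e (4 * t + i) ≠ 5 := by simpa using h5
  have hev := h _ hs h5'
  rw [hev] at hp
  rw [Bool.or_eq_true] at hp
  rcases hp with hp | hp
  · left
    simpa [Nat.blt_eq] using hp
  · right
    rw [Bool.and_eq_true, beq_iff_eq] at hp
    refine ⟨hp.1, ?_⟩
    rcases (Bool.or_eq_true _ _).mp hp.2 with hp2 | hp2
    · intro z hz hzi
      rw [List.all_eq_true] at hp2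
      have := hp2 z (List.mem_range.mpr hz)
      have hz12 : 4 * ((t + 2) % 3) + z < 12 := by omega
      rw [Bool.or_eq_true] at this
      rcases this with this | this
      · exfalso
        by_cases he5 : e (4 * ((t + 2) % 3) + z) = 5
        · simp [he5] at this
        · have := h _ hz12 he5
          simp_all
      · simpa [Nat.blt_eq] using this
    · rw [List.any_eq_true] at hp2
      obtain ⟨z0, hz0, hz0'⟩ := hp2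
      rw [List.mem_range] at hz0
      rw [Bool.and_eq_true, beq_iff_eq] at hz0'
      obtain ⟨hz0e, hz0s⟩ := hz0'
      have hz0s' : sec t i y < sec t i z0 := by simpa [Nat.blt_eq] using hz0s
      have hz012 : 4 * ((t + 2) % 3) + z0 < 12 := by omega
      have hv0 : e (4 * ((t + 2) % 3) + z0) = val (4 * ((t + 2) % 3) + z0) := by
        apply h _ hz012
        omega
      intro z hz hzi
      have hz12 : 4 * ((t + 2) % 3) + z < 12 := by omega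
      by_cases hzz : z = z0
      · rw [hzz]; exact hz0s'
      · exfalso
        refine hL.inj (4 * ((t + 2) % 3) + z) hz12 (4 * ((t + 2) % 3) + z0) hz012 (by omega)
          (by omega) ?_ (by omega)
        rw [hzi, ← hv0, hz0e]

theorem check_sound (val : ℕ → ℕ) (hL : LocalView val) :
    ∀ (T : Tr) (e : ℕ → ℕ), Agree e val → check T e = true →
      ∃ c < 3, ∀ s < 12, val s = stv c s := by
  intro T
  induction T with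
  | br s a b c d f iha ihb ihc ihd ihf =>
    intro e he hc
    simp only [check, Bool.and_eq_true, Nat.blt_eq] at hc
    obtain ⟨⟨⟨⟨⟨hs, h0⟩, h1⟩, h2⟩, h3⟩, h4⟩ := hc
    have hle := hL.le4 s hs
    have : val s = 0 ∨ val s = 1 ∨ val s = 2 ∨ val s = 3 ∨ val s = 4 := by omega
    rcases this with hv | hv | hv | hv | hv
    · exact iha _ (he.upd hv) h0
    · exact ihb _ (he.upd hv) h1
    · exact ihc _ (he.upd hv) h2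
    · exact ihd _ (he.upd hv) h3
    · exact ihf _ (he.upd hv) h4
  | inj s s' =>
    intro e he hc
    exfalso
    simp only [check, Bool.and_eq_true, Nat.blt_eq, bne_iff_ne, ne_eq, beq_iff_eq] at hc
    obtain ⟨⟨⟨⟨⟨hs, hs'⟩, hne⟩, hty⟩, heq⟩, hlt⟩ := hc
    have h1 := he s hs (by omega)
    have h2 := he s' hs' (by omega)
    exact hL.inj s hs s' hs' hne hty (by omega) (by omega)
  | clo s =>
    intro e he hc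
    exfalso
    simp only [check, Bool.and_eq_true, Nat.blt_eq, bne_iff_ne, ne_eq] at hc
    obtain ⟨⟨⟨⟨hs, h1⟩, h2⟩, h3⟩, h4⟩ := hc
    have e1 := he s hs (by omega)
    have e2 := he _ (show 4 * ((s / 4 + 1) % 3) + e s < 12 by omega) (by omega)
    have e3 := he _ (show 4 * ((s / 4 + 2) % 3) + e (4 * ((s / 4 + 1) % 3) + e s) < 12 by omega) h3
    have := hL.clo s hs (by omega) (by rw [← e1, ← e2]; exact h2)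
    rw [← e1, ← e2, ← e3] at this
    exact h4 this
  | blk m w d =>
    intro e he hc
    exfalso
    simp only [check, Bool.and_eq_true, Nat.blt_eq] at hc
    obtain ⟨⟨⟨⟨⟨hm, hw⟩, hd⟩, h1⟩, h2⟩, h3⟩ := hc
    exact hL.nb m hm w hw d hd ⟨prefB_sound he hL (by omega) hm h1,
      prefB_sound he hL (by omega) hw h2, prefB_sound he hL (by omega) hd h3⟩
  | st c =>
    intro e he hc
    simp only [check, Bool.and_eq_true, Nat.blt_eq, List.all_eq_true, List.mem_range,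
      beq_iff_eq] at hc
    refine ⟨c, hc.1, fun s hs => ?_⟩
    have h1 := hc.2 s hs
    rw [← he s hs ?_, h1]
    rw [h1]
    have : ∀ c < 3, ∀ s < 12, stv c s ≠ 5 := by decide
    exact this c hc.1 s hs

/-- **Local lemma.** Every local view without a blocking triple inside the gadget is one of the
three states. -/
theorem local_lemma {val : ℕ → ℕ} (hL : LocalView val) : ∃ c < 3, ∀ s < 12, val s = stv c s :=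
  check_sound val hL cert (fun _ => 5) (fun _ _ h => absurd rfl h) cert_ok

end Pool.Agent.LexCyc
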