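import Mathlib
import Pool.Agent.LexCyc.Defs
import Pool.Agent.LexCyc.Gadget

/-!
# The reduction from graph 3-colourability

A graph on `n` vertices is given by a Boolean function `adj : ℕ → ℕ → Bool`.  The instance has size
`4 * n`; the agents `4 * v, …, 4 * v + 3` of each type form the gadget of the vertex `v`.
-/

namespace Pool.Agent.LexCyc

/-- Class of the agent `b` of type `t + 1` in the primary order of the agent `a` of type `t`
(smaller is better). -/
def primCls (adj : ℕ → ℕ → Bool) (t a b : ℕ) : ℕ :=
  if a / 4 = b / 4 then pos t (a % 4) (b % 4)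
  else if t ≠ 1 ∧ a % 4 = b % 4 ∧ a % 4 < 3 ∧ adj (a / 4) (b / 4) = true then 3
  else 5

/-- Class of the agent `b` of type `t + 2` in the secondary order of the agent `a` of type `t`. -/
def secCls (t a b : ℕ) : ℕ :=
  if a / 4 = b / 4 then sec t (a % 4) (b % 4) else 4

/-- Primary key: order by class, then by index. -/
def primKey (n : ℕ) (adj : ℕ → ℕ → Bool) (t a b : ℕ) : ℕ := 4 * n * primCls adj t a b + b

/-- Secondary key: order by class, then by index. -/
def secKey (n t a b : ℕ) : ℕ := 4 * n * secCls t a b + b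

/-- The rank of `b` among `0, …, N - 1` when sorted by increasing `key`. -/
def rankOf (N : ℕ) (key : ℕ → ℕ) (b : ℕ) : ℕ :=
  ((Finset.range N).filter (fun b' => key b' < key b)).card

theorem rankOf_lt {N : ℕ} {key : ℕ → ℕ} {b : ℕ} (hb : b < N) : rankOf N key b < N := by
  unfold rankOf
  calc _ < (Finset.range N).card := by
        apply Finset.card_lt_card
        refine ⟨Finset.filter_subset _ _, fun h => ?_⟩
        have := h (Finset.mem_range.mpr hb)
        simp at this
    _ = N := Finset.card_range N

theorem rankOf_lt_iff {N : ℕ} {key : ℕ → ℕ} {b b' : ℕ} (hb : b < N) :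
    rankOf N key b < rankOf N key b' ↔ key b < key b' := by
  unfold rankOf
  constructor
  · intro h
    by_contra hk
    push Not at hk
    have : ((Finset.range N).filter (fun x => key x < key b')).card ≤
        ((Finset.range N).filter (fun x => key x < key b)).card := by
      apply Finset.card_le_card
      intro x hx
      rw [Finset.mem_filter] at hx ⊢
      exact ⟨hx.1, lt_of_lt_of_le hx.2 hk⟩
    omega
  · intro h
    apply Finset.card_lt_card
    refine ⟨fun x hx => ?_, fun hs => ?_⟩
    · rw [Finset.mem_filter] at hx ⊢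
      exact ⟨hx.1, lt_trans hx.2 h⟩
    · have := hs (Finset.mem_filter.mpr ⟨Finset.mem_range.mpr hb, h⟩)
      simp at this

/-- The rank function as a function on `Fin N`. -/
def rankFin {N : ℕ} (key : ℕ → ℕ) (b : Fin N) : Fin N := ⟨rankOf N key b, rankOf_lt b.2⟩

theorem rankFin_lt_iff {N : ℕ} {key : ℕ → ℕ} {b b' : Fin N} :
    rankFin key b < rankFin key b' ↔ key b < key b' := by
  unfold rankFin
  rw [Fin.mk_lt_mk]
  exact rankOf_lt_iff b.2

theorem key_inj {N c c' b b' : ℕ} (hb : b < N) (hb' : b' < N) (h : N * c + b = N * c' + b') :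
    b = b' := by
  have h1 : (N * c + b) % N = b := by rw [Nat.mul_add_mod]; exact Nat.mod_eq_of_lt hb
  have h2 : (N * c' + b') % N = b' := by rw [Nat.mul_add_mod]; exact Nat.mod_eq_of_lt hb'
  rw [← h1, ← h2, h]

theorem key_lt_of_lt {N c c' b b' : ℕ} (hb : b < N) (h : c < c') : N * c + b < N * c' + b' := by
  have : N * (c + 1) ≤ N * c' := Nat.mul_le_mul_left N h
  rw [Nat.mul_add] at this
  omega

theorem le_of_key_lt {N c c' b b' : ℕ} (hb' : b' < N) (h : N * c + b < N * c' + b') :
    c ≤ c' := by
  by_contra hc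
  push Not at hc
  have := key_lt_of_lt (b := b') (b' := b) hb' hc
  omega

theorem rankFin_inj {N : ℕ} {cls : ℕ → ℕ} :
    Function.Injective (rankFin (N := N) (fun b => N * cls b + b)) := by
  intro b b' h
  have h1 : ¬ (N * cls b + b < N * cls b' + b') := fun hlt => by
    have := (rankFin_lt_iff (key := fun b => N * cls b + b) (b := b) (b' := b')).mpr hlt
    rw [h] at this
    exact lt_irrefl _ this
  have h2 : ¬ (N * cls b' + b' < N * cls b + b) := fun hlt => by
    have := (rankFin_lt_iff (key := fun b => N * cls b + b) (b := b') (b' := b)).mpr hlt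
    rw [h] at this
    exact lt_irrefl _ this
  exact Fin.ext (key_inj (c := cls b) (c' := cls b') b.2 b'.2 (by omega))

/-- The instance of size `4 * n` attached to the graph `adj` on `n` vertices. -/
def toInst (n : ℕ) (adj : ℕ → ℕ → Bool) : LexInst (4 * n) where
  manWoman u w := rankFin (primKey n adj 0 u) w
  manDog u d := rankFin (secKey n 0 u) d
  womanDog w d := rankFin (primKey n adj 1 w) d
  womanMan w u := rankFin (secKey n 1 w) u
  dogMan d u := rankFin (primKey n adj 2 d) u
  dogWoman d w := rankFin (secKey n 2 d) w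
  manWoman_inj _ := rankFin_inj
  manDog_inj _ := rankFin_inj
  womanDog_inj _ := rankFin_inj
  womanMan_inj _ := rankFin_inj
  dogMan_inj _ := rankFin_inj
  dogWoman_inj _ := rankFin_inj

/-- Preference of the agent `a` of type `t` for the primary partner `x` and the secondary partner
`y` over its present partners, where `f t` gives the primary partner of the agents of type `t`. -/
def PrefG (n : ℕ) (adj : ℕ → ℕ → Bool) (f : ℕ → ℕ → ℕ) (t a x y : ℕ) : Prop :=
  primKey n adj t a x < primKey n adj t a (f t a) ∨
    (x = f t a ∧ secKey n t a y < secKey n t a (f ((t + 1) % 3) (f t a)))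

/-- A stable system of partner functions. -/
structure StableSys (n : ℕ) (adj : ℕ → ℕ → Bool) (f : ℕ → ℕ → ℕ) : Prop where
  lt : ∀ t < 3, ∀ a < 4 * n, f t a < 4 * n
  cyc : ∀ t < 3, ∀ a < 4 * n, f ((t + 2) % 3) (f ((t + 1) % 3) (f t a)) = a
  nb : ∀ m < 4 * n, ∀ w < 4 * n, ∀ d < 4 * n,
    ¬ (PrefG n adj f 0 m w d ∧ PrefG n adj f 1 w d m ∧ PrefG n adj f 2 d m w)

/-! ### Finite checks on the tables -/

theorem stv_lt : ∀ c < 3, ∀ s < 12, stv c s < 4 := by decide
theorem stv_cyc : ∀ c < 3, ∀ t < 3, ∀ i < 4,
    stv c (4 * ((t + 2) % 3) + stv c (4 * ((t + 1) % 3) + stv c (4 * t + i))) = i := by decide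
theorem pos_le : ∀ t < 3, ∀ i < 4, ∀ x < 5, pos t i x ≤ 4 := by decide
theorem pos_inj : ∀ t < 3, ∀ i < 4, ∀ x < 4, ∀ x' < 4, pos t i x = pos t i x' → x = x' := by
  decide
theorem pos_woman_le : ∀ i < 4, ∀ x < 4, pos 1 i x ≤ 3 := by decide
theorem pos_ext : ∀ t < 3, t ≠ 1 → ∀ i < 3, pos t i 4 = 3 := by decide
theorem pos_ne : ∀ t < 3, t ≠ 1 → ∀ i < 3, ∀ x < 4, pos t i x ≠ 3 := by decide
theorem sec_inj : ∀ t < 3, ∀ i < 4, ∀ x < 4, ∀ x' < 4, sec t i x = sec t i x' → x = x' := by
  decide
theorem sec_le : ∀ t < 3, ∀ i < 4, ∀ x < 4, sec t i x ≤ 3 := by decide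
theorem role_man : ∀ c < 3, 3 < pos 0 c (stv c (4 * 0 + c)) := by decide
theorem role_woman : ∀ c < 3, pos 1 c c < pos 1 c (stv c (4 * 1 + c)) := by decide
theorem role_dog : ∀ c < 3, 3 < pos 2 c (stv c (4 * 2 + c)) := by decide
theorem role_man' : ∀ c < 3, ∀ c' < 3, 3 ≤ pos 0 c' (stv c (4 * 0 + c')) → c = c' := by decide
theorem role_wd' : ∀ c < 3, ∀ c' < 3, pos 1 c' c' < pos 1 c' (stv c (4 * 1 + c')) →
    3 ≤ pos 2 c' (stv c (4 * 2 + c')) → c = c' := by decide

/-- Preference inside a gadget in state `c`. -/
def PrefS (c t i x y : ℕ) : Prop :=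
  pos t i x < pos t i (stv c (4 * t + i)) ∨
    (x = stv c (4 * t + i) ∧
      sec t i y < sec t i (stv c (4 * ((t + 1) % 3) + stv c (4 * t + i))))

instance (c t i x y : ℕ) : Decidable (PrefS c t i x y) := by unfold PrefS; infer_instance

theorem state_stable : ∀ c < 3, ∀ i < 4, ∀ j < 4, ∀ l < 4,
    ¬ (PrefS c 0 i j l ∧ PrefS c 1 j l i ∧ PrefS c 2 l i j) := by decide +kernel

/-! ### From a stable system to a colouring -/

section Soundness

variable {n : ℕ} {adj : ℕ → ℕ → Bool} {f : ℕ → ℕ → ℕ}

/-- Local view of the gadget of the vertex `v`. -/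
def view (f : ℕ → ℕ → ℕ) (v s : ℕ) : ℕ :=
  if f (s / 4) (4 * v + s % 4) / 4 = v then f (s / 4) (4 * v + s % 4) % 4 else 4

theorem view_eq {v t i : ℕ} (hi : i < 4) :
    view f v (4 * t + i) = if f t (4 * v + i) / 4 = v then f t (4 * v + i) % 4 else 4 := by
  unfold view
  have h1 : (4 * t + i) / 4 = t := by omega
  have h2 : (4 * t + i) % 4 = i := by omega
  rw [h1, h2]

theorem view_lt_iff {v t i j : ℕ} (hi : i < 4) (hj : j < 4) :
    view f v (4 * t + i) = j ↔ f t (4 * v + i) = 4 * v + j := by
  rw [view_eq hi]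
  split_ifs with h <;> omega

theorem StableSys.inj (h : StableSys n adj f) {t : ℕ} (ht : t < 3) {a a' : ℕ} (ha : a < 4 * n)
    (ha' : a' < 4 * n) (hf : f t a = f t a') : a = a' := by
  rw [← h.cyc t ht a ha, hf, h.cyc t ht a' ha']

theorem pref_lift (h : StableSys n adj f) {v : ℕ} (hv : v < n) {t i x y : ℕ} (ht : t < 3)
    (hi : i < 4) (hx : x < 4) (hy : y < 4) (hp : Pref (view f v) t i x y) :
    PrefG n adj f t (4 * v + i) (4 * v + x) (4 * v + y) := by
  have e1 : (4 * v + i) / 4 = v := by omega
  have e2 : (4 * v + i) % 4 = i := by omega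
  have e3 : (4 * v + x) / 4 = v := by omega
  have e4 : (4 * v + x) % 4 = x := by omega
  have e5 : (4 * v + y) / 4 = v := by omega
  have e6 : (4 * v + y) % 4 = y := by omega
  have hlt := h.lt t ht (4 * v + i) (by omega)
  rcases hp with hp | ⟨hp1, hp2⟩
  · left
    unfold primKey
    apply key_lt_of_lt (by omega)
    rw [view_eq hi] at hp
    unfold primCls
    rw [e1, e2, e3, e4, if_pos rfl]
    by_cases hb : f t (4 * v + i) / 4 = v
    · rw [if_pos hb] at hp
      rw [if_pos hb.symm]
      exact hp
    · rw [if_neg hb] at hp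
      rw [if_neg (fun hh => hb hh.symm)]
      split_ifs with hE
      · rwa [pos_ext t ht hE.1 i hE.2.2.1] at hp
      · have := pos_le t ht i hi 4 (by omega)
        omega
  · right
    have hfx : f t (4 * v + i) = 4 * v + x := (view_lt_iff hi hx).mp hp1
    refine ⟨hfx.symm, ?_⟩
    unfold secKey
    apply key_lt_of_lt (by omega)
    have hq := h.lt ((t + 1) % 3) (by omega) _ hlt
    unfold secCls
    rw [e1, e2, e5, e6, if_pos rfl]
    by_cases hb : v = f ((t + 1) % 3) (f t (4 * v + i)) / 4
    · rw [if_pos hb]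
      apply hp2 _ (by omega)
      rw [view_lt_iff (by omega) hi]
      have : 4 * v + f ((t + 1) % 3) (f t (4 * v + i)) % 4 =
          f ((t + 1) % 3) (f t (4 * v + i)) := by omega
      rw [this]
      exact h.cyc t ht _ (by omega)
    · rw [if_neg hb]
      have := sec_le t ht i hi y hy
      omega

theorem localView (h : StableSys n adj f) {v : ℕ} (hv : v < n) : LocalView (view f v) where
  le4 s hs := by unfold view; split_ifs <;> omega
  inj s hs s' hs' hne hty heq hlt := by
    have e1 : s = 4 * (s / 4) + s % 4 := by omega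
    have e2 : s' = 4 * (s / 4) + s' % 4 := by omega
    have h1 : f (s / 4) (4 * v + s % 4) = 4 * v + view f v s :=
      (view_lt_iff (by omega) hlt).mp (by rw [← e1])
    have h2 : f (s / 4) (4 * v + s' % 4) = 4 * v + view f v s :=
      (view_lt_iff (by omega) hlt).mp (by rw [← e2]; exact heq.symm)
    have := h.inj (by omega : s / 4 < 3) (by omega) (by omega) (h1.trans h2.symm)
    omega
  clo s hs h1 h2 := by
    have e1 : s = 4 * (s / 4) + s % 4 := by omega
    have g1 : f (s / 4) (4 * v + s % 4) = 4 * v + view f v s :=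
      (view_lt_iff (by omega) h1).mp (by rw [← e1])
    have g2 := (view_lt_iff (t := (s / 4 + 1) % 3) h1 h2).mp rfl
    rw [view_lt_iff h2 (by omega), ← g2, ← g1]
    exact h.cyc (s / 4) (by omega) _ (by omega)
  nb m hm w hw d hd hh :=
    h.nb (4 * v + m) (by omega) (4 * v + w) (by omega) (4 * v + d) (by omega)
      ⟨pref_lift h hv (by omega) hm hw hd hh.1, pref_lift h hv (by omega) hw hd hm hh.2.1,
        pref_lift h hv (by omega) hd hm hw hh.2.2⟩

theorem exists_state (h : StableSys n adj f) {v : ℕ} (hv : v < n) :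
    ∃ c < 3, ∀ t < 3, ∀ i < 4, f t (4 * v + i) = 4 * v + stv c (4 * t + i) := by
  obtain ⟨c, hc, hs⟩ := local_lemma (localView h hv)
  refine ⟨c, hc, fun t ht i hi => ?_⟩
  exact (view_lt_iff hi (stv_lt c hc _ (by omega))).mp (hs _ (by omega))

theorem colouring_of_stable (hsym : ∀ u < n, ∀ v < n, adj u v = adj v u)
    (h : StableSys n adj f) :
    ∃ col : Fin n → Fin 3, ∀ u v : Fin n, u ≠ v → adj u v = true → col u ≠ col v := by
  choose c hc hs using fun v : Fin n => exists_state h v.2
  refine ⟨fun v => ⟨c v, hc v⟩, fun u v huv hadj heq => ?_⟩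
  have hcc : c u = c v := by simpa using heq
  have huv' : (u : ℕ) ≠ v := fun hh => huv (Fin.ext hh)
  have hcu := hc u
  have hu := u.2
  have hv := v.2
  refine h.nb (4 * u + c u) (by omega) (4 * v + c u) (by omega) (4 * v + c u) (by omega)
    ⟨Or.inl ?_, Or.inl ?_, Or.inl ?_⟩
  · rw [hs u 0 (by omega) (c u) (by omega)]
    apply key_lt_of_lt (by omega)
    have h1 := stv_lt _ hcu (4 * 0 + c u) (by omega)
    have h2 := role_man _ hcu
    unfold primCls
    rw [show (4 * (u : ℕ) + c u) / 4 = u by omega, show (4 * (u : ℕ) + c u) % 4 = c u by omega,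
      show (4 * (v : ℕ) + c u) / 4 = v by omega, show (4 * (v : ℕ) + c u) % 4 = c u by omega,
      show (4 * (u : ℕ) + stv (c u) (4 * 0 + c u)) / 4 = u by omega,
      show (4 * (u : ℕ) + stv (c u) (4 * 0 + c u)) % 4 = stv (c u) (4 * 0 + c u) by omega,
      if_neg huv', if_pos ⟨by omega, rfl, hcu, hadj⟩, if_pos rfl]
    exact h2
  · rw [hs v 1 (by omega) (c u) (by omega), ← hcc]
    apply key_lt_of_lt (by omega)
    have h1 := stv_lt _ hcu (4 * 1 + c u) (by omega)
    have h2 := role_woman _ hcu
    unfold primCls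
    rw [show (4 * (v : ℕ) + c u) / 4 = v by omega, show (4 * (v : ℕ) + c u) % 4 = c u by omega,
      show (4 * (v : ℕ) + stv (c u) (4 * 1 + c u)) / 4 = v by omega,
      show (4 * (v : ℕ) + stv (c u) (4 * 1 + c u)) % 4 = stv (c u) (4 * 1 + c u) by omega,
      if_pos rfl, if_pos rfl]
    exact h2
  · rw [hs v 2 (by omega) (c u) (by omega), ← hcc]
    apply key_lt_of_lt (by omega)
    have h1 := stv_lt _ hcu (4 * 2 + c u) (by omega)
    have h2 := role_dog _ hcu
    unfold primCls
    rw [show (4 * (u : ℕ) + c u) / 4 = u by omega, show (4 * (u : ℕ) + c u) % 4 = c u by omega,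
      show (4 * (v : ℕ) + c u) / 4 = v by omega, show (4 * (v : ℕ) + c u) % 4 = c u by omega,
      show (4 * (v : ℕ) + stv (c u) (4 * 2 + c u)) / 4 = v by omega,
      show (4 * (v : ℕ) + stv (c u) (4 * 2 + c u)) % 4 = stv (c u) (4 * 2 + c u) by omega,
      if_neg (fun hh => huv' hh.symm), if_pos ⟨by omega, rfl, hcu, by rw [hsym v hv u hu]; exact hadj⟩,
      if_pos rfl]
    exact h2

end Soundness

/-! ### From a colouring to a stable system -/

section Completeness

variable {n : ℕ} {adj : ℕ → ℕ → Bool}

/-- The partner functions attached to a colouring. -/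
def sysOf (col : ℕ → ℕ) (t a : ℕ) : ℕ := 4 * (a / 4) + stv (col (a / 4)) (4 * t + a % 4)

theorem sysOf_div {col : ℕ → ℕ} (hcol : ∀ v, col v < 3) {t a : ℕ} (ht : t < 3) :
    sysOf col t a / 4 = a / 4 := by
  unfold sysOf
  have := stv_lt (col (a / 4)) (hcol _) (4 * t + a % 4) (by omega)
  omega

theorem sysOf_mod {col : ℕ → ℕ} (hcol : ∀ v, col v < 3) {t a : ℕ} (ht : t < 3) :
    sysOf col t a % 4 = stv (col (a / 4)) (4 * t + a % 4) := by
  unfold sysOf
  have := stv_lt (col (a / 4)) (hcol _) (4 * t + a % 4) (by omega)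
  omega

theorem prefS_of_prefG {col : ℕ → ℕ} (hcol : ∀ v, col v < 3) {t a x y : ℕ} (ht : t < 3)
    (ha : a < 4 * n) (hxa : a / 4 = x / 4) (hya : a / 4 = y / 4)
    (hp : PrefG n adj (sysOf col) t a x y) :
    PrefS (col (a / 4)) t (a % 4) (x % 4) (y % 4) := by
  have hd := sysOf_div (col := col) hcol (t := t) (a := a) ht
  have hm := sysOf_mod (col := col) hcol (t := t) (a := a) ht
  have hlt := stv_lt (col (a / 4)) (hcol _) (4 * t + a % 4) (by omega)
  rcases hp with hp | ⟨hp1, hp2⟩
  · left
    by_cases hxf : x = sysOf col t a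
    · rw [← hxf] at hp
      exact absurd hp (lt_irrefl _)
    · unfold primKey at hp
      have hle := le_of_key_lt (by omega) hp
      unfold primCls at hle
      rw [if_pos hxa, if_pos hd.symm, hm] at hle
      rcases Nat.lt_or_ge (pos t (a % 4) (x % 4))
        (pos t (a % 4) (stv (col (a / 4)) (4 * t + a % 4))) with h | h
      · exact h
      · exfalso
        have := pos_inj t ht (a % 4) (by omega) (x % 4) (by omega) _ hlt (le_antisymm hle h)
        apply hxf
        omega
  · right
    refine ⟨by rw [hp1, hm], ?_⟩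
    have ht1 : (t + 1) % 3 < 3 := by omega
    have hd2 := sysOf_div (col := col) hcol (t := (t + 1) % 3) (a := sysOf col t a) ht1
    have hm2 := sysOf_mod (col := col) hcol (t := (t + 1) % 3) (a := sysOf col t a) ht1
    have hlt2 := stv_lt (col (a / 4)) (hcol _)
      (4 * ((t + 1) % 3) + stv (col (a / 4)) (4 * t + a % 4)) (by omega)
    by_cases hyf : y = sysOf col ((t + 1) % 3) (sysOf col t a)
    · rw [← hyf] at hp2
      exact absurd hp2 (lt_irrefl _)
    · unfold secKey at hp2
      have hle := le_of_key_lt (by omega) hp2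
      unfold secCls at hle
      rw [if_pos hya, if_pos (by rw [hd2, hd]), hm2, hm, hd] at hle
      rcases Nat.lt_or_ge (sec t (a % 4) (y % 4)) (sec t (a % 4)
        (stv (col (a / 4)) (4 * ((t + 1) % 3) + stv (col (a / 4)) (4 * t + a % 4)))) with h | h
      · exact h
      · exfalso
        have := sec_inj t ht (a % 4) (by omega) (y % 4) (by omega) _ hlt2 (le_antisymm hle h)
        have hm2' : sysOf col ((t + 1) % 3) (sysOf col t a) % 4 = stv (col (a / 4))
            (4 * ((t + 1) % 3) + stv (col (a / 4)) (4 * t + a % 4)) := by rw [hm2, hd, hm]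
        apply hyf
        omega

theorem stable_of_colouring {col : ℕ → ℕ} (hcol : ∀ v, col v < 3)
    (hprop : ∀ u < n, ∀ v < n, u ≠ v → adj u v = true → col u ≠ col v) :
    StableSys n adj (sysOf col) where
  lt t ht a ha := by
    have := sysOf_div (col := col) hcol (t := t) (a := a) ht
    omega
  cyc t ht a ha := by
    have ht1 : (t + 1) % 3 < 3 := by omega
    have ht2 : (t + 2) % 3 < 3 := by omega
    have hd := sysOf_div (col := col) hcol (t := t) (a := a) ht
    have hm := sysOf_mod (col := col) hcol (t := t) (a := a) ht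
    have hd1 := sysOf_div (col := col) hcol (t := (t + 1) % 3) (a := sysOf col t a) ht1
    have hm1 := sysOf_mod (col := col) hcol (t := (t + 1) % 3) (a := sysOf col t a) ht1
    have hd2 := sysOf_div (col := col) hcol (t := (t + 2) % 3)
      (a := sysOf col ((t + 1) % 3) (sysOf col t a)) ht2
    have hm2 := sysOf_mod (col := col) hcol (t := (t + 2) % 3)
      (a := sysOf col ((t + 1) % 3) (sysOf col t a)) ht2
    rw [hd1, hd, hm1, hm, hd, stv_cyc _ (hcol _) t ht (a % 4) (by omega)] at hm2
    omega
  nb m hm w hw d hd := by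
    rintro ⟨h0, h1, h2⟩
    have e0 := sysOf_div (col := col) hcol (t := 0) (a := m) (by omega)
    have e0' := sysOf_mod (col := col) hcol (t := 0) (a := m) (by omega)
    have e1 := sysOf_div (col := col) hcol (t := 1) (a := w) (by omega)
    have e1' := sysOf_mod (col := col) hcol (t := 1) (a := w) (by omega)
    have e2 := sysOf_div (col := col) hcol (t := 2) (a := d) (by omega)
    have e2' := sysOf_mod (col := col) hcol (t := 2) (a := d) (by omega)
    have l0 := stv_lt (col (m / 4)) (hcol _) (4 * 0 + m % 4) (by omega)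
    have l1 := stv_lt (col (w / 4)) (hcol _) (4 * 1 + w % 4) (by omega)
    have l2 := stv_lt (col (d / 4)) (hcol _) (4 * 2 + d % 4) (by omega)
    -- the dog belongs to the gadget of the woman
    have hwd : w / 4 = d / 4 := by
      by_contra hne
      rcases h1 with h1 | h1
      · have hle := le_of_key_lt (by omega) h1
        unfold primCls at hle
        rw [if_neg hne, if_neg (fun hh => hh.1 rfl), if_pos e1.symm, e1'] at hle
        have := pos_woman_le (w % 4) (by omega) _ l1
        omega
      · rw [h1.1] at hne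
        exact hne e1.symm
    by_cases hmw : m / 4 = w / 4
    · -- all three agents in one gadget
      have k0 := prefS_of_prefG hcol (by omega) hm hmw (hmw.trans hwd) h0
      have k1 := prefS_of_prefG hcol (by omega) hw hwd hmw.symm h1
      have k2 := prefS_of_prefG hcol (by omega) hd (hmw.trans hwd).symm hwd.symm h2
      rw [← hmw] at k1
      rw [← hwd, ← hmw] at k2
      exact state_stable _ (hcol _) (m % 4) (by omega) (w % 4) (by omega) (d % 4) (by omega)
        ⟨k0, k1, k2⟩
    · -- the man belongs to another gadget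
      have hmd : ¬ d / 4 = m / 4 := fun hh => hmw (hh.symm.trans hwd.symm)
      -- the man
      have g0 : m % 4 = w % 4 ∧ m % 4 < 3 ∧ adj (m / 4) (w / 4) = true ∧
          3 ≤ pos 0 (m % 4) (stv (col (m / 4)) (4 * 0 + m % 4)) := by
        rcases h0 with h0 | h0
        · have hle := le_of_key_lt (by omega) h0
          unfold primCls at hle
          rw [if_neg hmw, if_pos e0.symm, e0'] at hle
          split_ifs at hle with hE
          · exact ⟨hE.2.1, hE.2.2.1, hE.2.2.2, hle⟩
          · have := pos_le 0 (by omega) (m % 4) (by omega) _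
              (show stv (col (m / 4)) (4 * 0 + m % 4) < 5 by omega)
            omega
        · rw [h0.1, e0] at hmw
          exact absurd rfl hmw
      -- the dog
      have g2 : d % 4 = m % 4 ∧ 3 ≤ pos 2 (d % 4) (stv (col (d / 4)) (4 * 2 + d % 4)) := by
        rcases h2 with h2 | h2
        · have hle := le_of_key_lt (by omega) h2
          unfold primCls at hle
          rw [if_neg hmd, if_pos e2.symm, e2'] at hle
          split_ifs at hle with hE
          · exact ⟨hE.2.1, hle⟩
          · have := pos_le 2 (by omega) (d % 4) (by omega) _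
              (show stv (col (d / 4)) (4 * 2 + d % 4) < 5 by omega)
            omega
        · rw [h2.1, e2] at hmd
          exact absurd rfl hmd
      -- the woman
      have g1 : pos 1 (w % 4) (d % 4) < pos 1 (w % 4) (stv (col (w / 4)) (4 * 1 + w % 4)) := by
        rcases h1 with h1 | h1
        · by_cases hxf : d = sysOf col 1 w
          · rw [← hxf] at h1
            exact absurd h1 (lt_irrefl _)
          · have hle := le_of_key_lt (by omega) h1
            unfold primCls at hle
            rw [if_pos hwd, if_pos e1.symm, e1'] at hle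
            rcases Nat.lt_or_ge (pos 1 (w % 4) (d % 4))
              (pos 1 (w % 4) (stv (col (w / 4)) (4 * 1 + w % 4))) with h | h
            · exact h
            · exfalso
              have := pos_inj 1 (by omega) (w % 4) (by omega) (d % 4) (by omega) _ l1
                (le_antisymm hle h)
              apply hxf
              omega
        · exfalso
          have hle := le_of_key_lt
            (by have := sysOf_div (col := col) hcol (t := (1 + 1) % 3) (a := sysOf col 1 w)
                  (by omega)
                omega) h1.2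
          unfold secCls at hle
          have e3 := sysOf_div (col := col) hcol (t := (1 + 1) % 3) (a := sysOf col 1 w) (by omega)
          have e3' := sysOf_mod (col := col) hcol (t := (1 + 1) % 3) (a := sysOf col 1 w)
            (by omega)
          rw [if_neg (fun hh => hmw hh.symm), if_pos (by rw [e3, e1]), e3'] at hle
          have := sec_le 1 (by omega) (w % 4) (by omega) _
            (stv_lt (col (sysOf col 1 w / 4)) (hcol _)
              (4 * ((1 + 1) % 3) + sysOf col 1 w % 4) (by omega))
          omega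
      obtain ⟨q1, q2, q3, q4⟩ := g0
      obtain ⟨q5, q6⟩ := g2
      have c1 := role_man' (col (m / 4)) (hcol _) (m % 4) q2 q4
      have hdw : d % 4 = w % 4 := q5.trans q1
      rw [hdw] at q6 g1
      rw [← hwd] at q6
      have c2 := role_wd' (col (w / 4)) (hcol _) (w % 4) (by omega) g1 q6
      exact hprop (m / 4) (by omega) (w / 4) (by omega) hmw q3 (by omega)

end Completeness

end Pool.Agent.LexCyc
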