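import Mathlib
import Pool.Agent.LexCyc.Reduction

/-!
# Stable matchings and stable systems of partner functions
-/

namespace Pool.Agent.LexCyc

variable {n : ℕ} {adj : ℕ → ℕ → Bool}

/-- From a stable matching to a stable system. -/
theorem stableSys_of_stable {M : Set (Fin (4 * n) × Fin (4 * n) × Fin (4 * n))}
    (h : (toInst n adj).IsStable M) : ∃ f, StableSys n adj f := by
  obtain ⟨⟨hU, hW, hD⟩, hnb⟩ := h
  choose tu htu htu' using fun u => hU u
  choose tw htw htw' using fun w => hW w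
  choose td htd htd' using fun d => hD d
  simp only at htu htu' htw htw' htd htd'
  -- the three partner functions on `Fin`
  let F0 : Fin (4 * n) → Fin (4 * n) := fun u => (tu u).2.1
  let F1 : Fin (4 * n) → Fin (4 * n) := fun w => (tw w).2.2
  let F2 : Fin (4 * n) → Fin (4 * n) := fun d => (td d).1
  have eu : ∀ t ∈ M, tu t.1 = t := fun t ht => (htu' t.1 t ⟨ht, rfl⟩).symm
  have ew : ∀ t ∈ M, tw t.2.1 = t := fun t ht => (htw' t.2.1 t ⟨ht, rfl⟩).symm
  have ed : ∀ t ∈ M, td t.2.2 = t := fun t ht => (htd' t.2.2 t ⟨ht, rfl⟩).symm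
  have a0 : ∀ u, F1 (F0 u) = (tu u).2.2 := fun u => by
    show (tw (tu u).2.1).2.2 = _
    rw [ew _ (htu u).1]
  have a1 : ∀ w, F2 (F1 w) = (tw w).1 := fun w => by
    show (td (tw w).2.2).1 = _
    rw [ed _ (htw w).1]
  have a2 : ∀ d, F0 (F2 d) = (td d).2.1 := fun d => by
    show (tu (td d).1).2.1 = _
    rw [eu _ (htd d).1]
  have c0 : ∀ u, F2 (F1 (F0 u)) = u := fun u => by
    rw [a1]
    show (tw (tu u).2.1).1 = _
    rw [ew _ (htu u).1, (htu u).2]
  have c1 : ∀ w, F0 (F2 (F1 w)) = w := fun w => by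
    rw [a2]
    show (td (tw w).2.2).2.1 = _
    rw [ed _ (htw w).1, (htw w).2]
  have c2 : ∀ d, F1 (F0 (F2 d)) = d := fun d => by
    rw [a0]
    show (tu (td d).1).2.2 = _
    rw [eu _ (htd d).1, (htd d).2]
  let f : ℕ → ℕ → ℕ := fun t a =>
    if ha : a < 4 * n then
      if t = 0 then (F0 ⟨a, ha⟩ : ℕ) else if t = 1 then (F1 ⟨a, ha⟩ : ℕ) else (F2 ⟨a, ha⟩ : ℕ)
    else 0
  have f0 : ∀ a (ha : a < 4 * n), f 0 a = F0 ⟨a, ha⟩ := fun a ha => by simp [f, ha]
  have f1 : ∀ a (ha : a < 4 * n), f 1 a = F1 ⟨a, ha⟩ := fun a ha => by simp [f, ha]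
  have f2 : ∀ a (ha : a < 4 * n), f 2 a = F2 ⟨a, ha⟩ := fun a ha => by simp [f, ha]
  refine ⟨f, ?_, ?_, ?_⟩
  · intro t ht a ha
    have : t = 0 ∨ t = 1 ∨ t = 2 := by omega
    rcases this with rfl | rfl | rfl
    · rw [f0 a ha]; exact (F0 _).2
    · rw [f1 a ha]; exact (F1 _).2
    · rw [f2 a ha]; exact (F2 _).2
  · intro t ht a ha
    have : t = 0 ∨ t = 1 ∨ t = 2 := by omega
    rcases this with rfl | rfl | rfl
    · show f 2 (f 1 (f 0 a)) = a
      rw [f0 a ha, f1 _ (F0 _).2, f2 _ (F1 _).2]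
      simp only [Fin.eta, c0]
    · show f 0 (f 2 (f 1 a)) = a
      rw [f1 a ha, f2 _ (F1 _).2, f0 _ (F2 _).2]
      simp only [Fin.eta, c1]
    · show f 1 (f 0 (f 2 a)) = a
      rw [f2 a ha, f0 _ (F2 _).2, f1 _ (F0 _).2]
      simp only [Fin.eta, c2]
  · intro m hm w hw d hd hh
    obtain ⟨h0, h1, h2⟩ := hh
    refine hnb (⟨m, hm⟩, ⟨w, hw⟩, ⟨d, hd⟩) ⟨?_, ?_, ?_⟩
    · refine ⟨tu ⟨m, hm⟩, (htu _).1, (htu _).2, ?_⟩
      rcases h0 with h0 | h0
      · left
        show rankFin _ _ < rankFin _ _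
        rw [rankFin_lt_iff]
        rw [f0 m hm] at h0
        exact h0
      · right
        rw [f0 m hm] at h0
        refine ⟨Fin.ext h0.1, ?_⟩
        show rankFin _ _ < rankFin _ _
        rw [rankFin_lt_iff]
        have h02 := h0.2
        rw [show (0 + 1) % 3 = 1 from rfl, f1 _ (F0 _).2, Fin.eta, a0] at h02
        exact h02
    · refine ⟨tw ⟨w, hw⟩, (htw _).1, (htw _).2, ?_⟩
      rcases h1 with h1 | h1
      · left
        show rankFin _ _ < rankFin _ _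
        rw [rankFin_lt_iff]
        rw [f1 w hw] at h1
        exact h1
      · right
        rw [f1 w hw] at h1
        refine ⟨Fin.ext h1.1, ?_⟩
        show rankFin _ _ < rankFin _ _
        rw [rankFin_lt_iff]
        have h12 := h1.2
        rw [show (1 + 1) % 3 = 2 from rfl, f2 _ (F1 _).2, Fin.eta, a1] at h12
        exact h12
    · refine ⟨td ⟨d, hd⟩, (htd _).1, (htd _).2, ?_⟩
      rcases h2 with h2 | h2
      · left
        show rankFin _ _ < rankFin _ _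
        rw [rankFin_lt_iff]
        rw [f2 d hd] at h2
        exact h2
      · right
        rw [f2 d hd] at h2
        refine ⟨Fin.ext h2.1, ?_⟩
        show rankFin _ _ < rankFin _ _
        rw [rankFin_lt_iff]
        have h22 := h2.2
        rw [show (2 + 1) % 3 = 0 from rfl, f0 _ (F2 _).2, Fin.eta, a2] at h22
        exact h22

/-- From a stable system to a stable matching. -/
theorem stable_of_stableSys {f : ℕ → ℕ → ℕ} (h : StableSys n adj f) :
    ∃ M, (toInst n adj).IsStable M := by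
  have c0 : ∀ a < 4 * n, f 2 (f 1 (f 0 a)) = a := h.cyc 0 (by omega)
  have c1 : ∀ a < 4 * n, f 0 (f 2 (f 1 a)) = a := h.cyc 1 (by omega)
  have c2 : ∀ a < 4 * n, f 1 (f 0 (f 2 a)) = a := h.cyc 2 (by omega)
  have l0 := h.lt 0 (by omega)
  have l1 := h.lt 1 (by omega)
  have l2 := h.lt 2 (by omega)
  refine ⟨{t | (t.2.1 : ℕ) = f 0 t.1 ∧ (t.2.2 : ℕ) = f 1 t.2.1}, ⟨?_, ?_, ?_⟩, ?_⟩
  · intro u
    refine ⟨(u, ⟨f 0 u, l0 _ u.2⟩, ⟨f 1 (f 0 u), l1 _ (l0 _ u.2)⟩), ⟨⟨rfl, rfl⟩, rfl⟩, ?_⟩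
    rintro ⟨u', w', d'⟩ ⟨⟨h1, h2⟩, h3⟩
    simp only at h1 h2 h3
    subst h3
    refine Prod.ext rfl (Prod.ext (Fin.ext h1) (Fin.ext ?_))
    simp only
    rw [h2, h1]
  · intro w
    refine ⟨(⟨f 2 (f 1 w), l2 _ (l1 _ w.2)⟩, w, ⟨f 1 w, l1 _ w.2⟩), ⟨⟨(c1 _ w.2).symm, rfl⟩, rfl⟩,
      ?_⟩
    rintro ⟨u', w', d'⟩ ⟨⟨h1, h2⟩, h3⟩
    simp only at h1 h2 h3
    subst h3
    refine Prod.ext (Fin.ext ?_) (Prod.ext rfl (Fin.ext h2))
    simp only
    rw [h1, c0 _ u'.2]
  · intro d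
    refine ⟨(⟨f 2 d, l2 _ d.2⟩, ⟨f 0 (f 2 d), l0 _ (l2 _ d.2)⟩, d), ⟨⟨rfl, (c2 _ d.2).symm⟩, rfl⟩,
      ?_⟩
    rintro ⟨u', w', d'⟩ ⟨⟨h1, h2⟩, h3⟩
    simp only at h1 h2 h3
    subst h3
    have hu : (u' : ℕ) = f 2 d' := by rw [h2, h1, c0 _ u'.2]
    refine Prod.ext (Fin.ext hu) (Prod.ext (Fin.ext ?_) rfl)
    simp only
    rw [h1, hu]
  · rintro ⟨m, w, d⟩ ⟨⟨s0, hs0, e0, h0⟩, ⟨s1, hs1, e1, h1⟩, ⟨s2, hs2, e2, h2⟩⟩
    simp only at e0 e1 e2 h0 h1 h2
    obtain ⟨u0, w0, d0⟩ := s0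
    obtain ⟨u1, w1, d1⟩ := s1
    obtain ⟨u2, w2, d2⟩ := s2
    obtain ⟨p0, q0⟩ := hs0
    obtain ⟨p1, q1⟩ := hs1
    obtain ⟨p2, q2⟩ := hs2
    simp only at e0 e1 e2 p0 q0 p1 q1 p2 q2 h0 h1 h2
    subst e0 e1 e2
    have hu1 : (u1 : ℕ) = f 2 (f 1 w1) := by rw [p1, c0 _ u1.2]
    have hu2 : (u2 : ℕ) = f 2 d2 := by rw [q2, p2, c0 _ u2.2]
    refine h.nb u0 u0.2 w1 w1.2 d2 d2.2 ⟨?_, ?_, ?_⟩
    · rcases h0 with h0 | h0
      · left
        have h0' := rankFin_lt_iff.mp h0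
        rw [p0] at h0'
        exact h0'
      · right
        have h0' := rankFin_lt_iff.mp h0.2
        simp only at h0'
        rw [q0, p0] at h0'
        have h01 : (w1 : ℕ) = w0 := congrArg Fin.val h0.1
        exact ⟨h01.trans p0, h0'⟩
    · rcases h1 with h1 | h1
      · left
        have h1' := rankFin_lt_iff.mp h1
        simp only at h1'
        rw [q1] at h1'
        exact h1'
      · right
        have h1' := rankFin_lt_iff.mp h1.2
        simp only at h1'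
        rw [hu1] at h1'
        have h11 : (d2 : ℕ) = d1 := congrArg Fin.val h1.1
        exact ⟨h11.trans q1, h1'⟩
    · rcases h2 with h2 | h2
      · left
        have h2' := rankFin_lt_iff.mp h2
        simp only at h2'
        rw [hu2] at h2'
        exact h2'
      · right
        have h2' := rankFin_lt_iff.mp h2.2
        simp only at h2'
        rw [p2, hu2] at h2'
        have h21 : (u0 : ℕ) = u2 := congrArg Fin.val h2.1
        exact ⟨h21.trans hu2, h2'⟩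

/-- **Main equivalence.** For a symmetric `adj`, the instance `toInst n adj` has a stable matching
if and only if the graph is 3-colourable. -/
theorem exists_stable_iff (hsym : ∀ u < n, ∀ v < n, adj u v = adj v u) :
    (∃ M, (toInst n adj).IsStable M) ↔
      ∃ col : Fin n → Fin 3, ∀ u v : Fin n, u ≠ v → adj u v = true → col u ≠ col v := by
  constructor
  · rintro ⟨M, hM⟩
    obtain ⟨f, hf⟩ := stableSys_of_stable hM
    exact colouring_of_stable hsym hf
  · rintro ⟨col, hcol⟩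
    let c : ℕ → ℕ := fun v => if h : v < n then (col ⟨v, h⟩ : ℕ) else 0
    have hc3 : ∀ v, c v < 3 := fun v => by
      by_cases hv : v < n
      · simp only [c, hv, dif_pos]; exact (col _).2
      · simp only [c, hv, dif_neg, not_false_eq_true]; omega
    apply stable_of_stableSys (f := sysOf c)
    apply stable_of_colouring hc3
    intro u hu v hv huv hadj heq
    simp only [c, hu, hv, dif_pos] at heq
    exact hcol ⟨u, hu⟩ ⟨v, hv⟩ (fun h => huv (congrArg Fin.val h)) hadj (Fin.ext heq)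

end Pool.Agent.LexCyc
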