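import Mathlib
import Pool.Agent.LexCyc.Bridge
import Pool.Agent.Lib.PolyTime.PF

/-!
# The decision problems as languages, and the polynomial-time reduction
-/

namespace Pool.Agent.LexCyc

open Pool.Agent.PolyTime Function

open Classical in
/-- The adjacency matrix of a graph, row by row. -/
noncomputable def encodeGraph {n : ℕ} (G : SimpleGraph (Fin n)) : List Bool :=
  List.ofFn (fun k : Fin (n * n) => decide (G.Adj k.divNat k.modNat))

/-- Graph 3-colourability as a set of bit strings. -/
def ThreeCol : Set (List Bool) :=
  {x | ∃ (n : ℕ) (G : SimpleGraph (Fin n)), x = encodeGraph G ∧ G.Colorable 3}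

/-- The table of ranks, row by row. -/
def rankTable {n : ℕ} (r : Fin n → Fin n → Fin n) : List ℕ :=
  List.ofFn (fun k : Fin (n * n) => (r k.divNat k.modNat : ℕ))

/-- Encoding of an instance: the size `n` and the six rank tables, all numbers in unary. -/
def encodeInst {n : ℕ} (I : LexInst n) : List Bool :=
  unary (n :: (rankTable I.manWoman ++ (rankTable I.manDog ++ (rankTable I.womanDog ++
    (rankTable I.womanMan ++ (rankTable I.dogMan ++ rankTable I.dogWoman))))))

/-- The existence of a stable matching for a lexicographically cyclic instance of size at least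
three, as a set of bit strings. -/
def LexStable : Set (List Bool) :=
  {y | ∃ (n : ℕ) (I : LexInst n), 3 ≤ n ∧ y = encodeInst I ∧ ∃ M, I.IsStable M}

/-! ### Injectivity of the encodings -/

theorem unary_cons (k : ℕ) (l : List ℕ) :
    unary (k :: l) = List.replicate k true ++ false :: unary l := by
  simp [unary]

theorem replicate_cancel : ∀ {k k' : ℕ} {l l' : List Bool},
    List.replicate k true ++ false :: l = List.replicate k' true ++ false :: l' →
      k = k' ∧ l = l'
  | 0, 0, l, l', h => by simpa using h
  | 0, k' + 1, l, l', h => by simp [List.replicate_succ] at h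
  | k + 1, 0, l, l', h => by simp [List.replicate_succ] at h
  | k + 1, k' + 1, l, l', h => by
      simp only [List.replicate_succ, List.cons_append, List.cons.injEq, true_and] at h
      have := replicate_cancel h
      exact ⟨by rw [this.1], this.2⟩

theorem unary_inj : ∀ {l l' : List ℕ}, unary l = unary l' → l = l'
  | [], [], _ => rfl
  | [], k :: l, h => by
      rw [unary_cons] at h
      have := congrArg List.length h
      simp [unary] at this
  | k :: l, [], h => by
      rw [unary_cons] at h
      have := congrArg List.length h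
      simp [unary] at this
  | k :: l, k' :: l', h => by
      rw [unary_cons, unary_cons] at h
      have := replicate_cancel h
      rw [this.1, unary_inj this.2]

theorem length_rankTable {n : ℕ} (r : Fin n → Fin n → Fin n) :
    (rankTable r).length = n * n := by simp [rankTable]

theorem rankTable_inj {n : ℕ} {r r' : Fin n → Fin n → Fin n} (h : rankTable r = rankTable r') :
    r = r' := by
  unfold rankTable at h
  rw [List.ofFn_inj] at h
  funext a b
  have := congrFun h (finProdFinEquiv (a, b))
  have e : finProdFinEquiv.symm (finProdFinEquiv (a, b)) = (a, b) :=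
    Equiv.symm_apply_apply _ _
  have e1 : (finProdFinEquiv (a, b)).divNat = a := congrArg Prod.fst e
  have e2 : (finProdFinEquiv (a, b)).modNat = b := congrArg Prod.snd e
  rw [e1, e2] at this
  exact Fin.ext this

theorem encodeInst_inj {n : ℕ} {I I' : LexInst n} (h : encodeInst I = encodeInst I') :
    I = I' := by
  have h1 := unary_inj h
  rw [List.cons.injEq] at h1
  have h2 := h1.2
  have l1 := List.append_inj h2 (by simp [length_rankTable])
  have l2 := List.append_inj l1.2 (by simp [length_rankTable])
  have l3 := List.append_inj l2.2 (by simp [length_rankTable])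
  have l4 := List.append_inj l3.2 (by simp [length_rankTable])
  have l5 := List.append_inj l4.2 (by simp [length_rankTable])
  have e1 := rankTable_inj l1.1
  have e2 := rankTable_inj l2.1
  have e3 := rankTable_inj l3.1
  have e4 := rankTable_inj l4.1
  have e5 := rankTable_inj l5.1
  have e6 := rankTable_inj l5.2
  cases I
  cases I'
  simp only at e1 e2 e3 e4 e5 e6
  subst e1 e2 e3 e4 e5 e6
  rfl

/-! ### The reduction on strings -/

/-- Number of vertices of the graph coded by `x`. -/
def nv (x : List Bool) : ℕ := Nat.sqrt x.length

/-- Adjacency bit. -/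
def adjX (x : List Bool) (u v : ℕ) : Bool := x.getD (u * nv x + v) false

/-- `x` is the adjacency matrix of a graph. -/
def Valid (x : List Bool) : Prop :=
  nv x * nv x = x.length ∧ (∀ u < nv x, ¬ adjX x u u = true) ∧
    (∀ u < nv x, ∀ v < nv x, (adjX x u v = true → adjX x v u = true))

/-- Number of vertices of the graph used for the instance (at least one). -/
def nv' (x : List Bool) : ℕ := nv x + (1 - nv x)

open Classical in
/-- The reduction. -/
noncomputable def red (x : List Bool) : List Bool :=
  if Valid x then encodeInst (toInst (nv' x) (adjX x)) else []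

theorem valid_encodeGraph {n : ℕ} (G : SimpleGraph (Fin n)) :
    nv (encodeGraph G) = n ∧ (∀ u v : Fin n, adjX (encodeGraph G) u v = true ↔ G.Adj u v) ∧
      Valid (encodeGraph G) := by
  have hl : (encodeGraph G).length = n * n := by simp [encodeGraph]
  have hn : nv (encodeGraph G) = n := by
    unfold nv
    rw [hl, Nat.sqrt_eq]
  have hadj : ∀ u v : Fin n, adjX (encodeGraph G) u v = true ↔ G.Adj u v := by
    intro u v
    unfold adjX
    rw [hn]
    have hlt : (u : ℕ) * n + v < n * n := by
      have h1 := u.2
      have h2 := v.2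
      calc (u : ℕ) * n + v < u * n + n := by omega
        _ = (u + 1) * n := by ring
        _ ≤ n * n := Nat.mul_le_mul_right _ h1
    rw [List.getD_eq_getElem _ _ (by rw [hl]; exact hlt)]
    unfold encodeGraph
    rw [List.getElem_ofFn]
    have e : finProdFinEquiv.symm (⟨(u : ℕ) * n + v, hlt⟩ : Fin (n * n)) = (u, v) := by
      rw [Equiv.symm_apply_eq]
      apply Fin.ext
      simp only [finProdFinEquiv_apply_val]
      ring
    have e1 : Fin.divNat (⟨(u : ℕ) * n + v, hlt⟩ : Fin (n * n)) = u := congrArg Prod.fst e
    have e2 : Fin.modNat (⟨(u : ℕ) * n + v, hlt⟩ : Fin (n * n)) = v := congrArg Prod.snd e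
    rw [e1, e2]
    simp
  refine ⟨hn, hadj, ?_, ?_, ?_⟩
  · rw [hn, hl]
  · intro u hu
    rw [hn] at hu
    rw [hadj ⟨u, hu⟩ ⟨u, hu⟩]
    exact G.irrefl
  · intro u hu v hv h
    rw [hn] at hu hv
    rw [hadj ⟨u, hu⟩ ⟨v, hv⟩] at h
    rw [hadj ⟨v, hv⟩ ⟨u, hu⟩]
    exact h.symm

/-- The graph coded by a valid string. -/
def graphOf (x : List Bool) (hx : Valid x) : SimpleGraph (Fin (nv x)) where
  Adj u v := adjX x u v = true
  symm := ⟨fun u v h => hx.2.2 u u.2 v v.2 h⟩
  loopless := ⟨fun u h => hx.2.1 u u.2 h⟩

theorem encodeGraph_graphOf (x : List Bool) (hx : Valid x) : encodeGraph (graphOf x hx) = x := by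
  unfold encodeGraph
  apply List.ext_getElem
  · rw [List.length_ofFn]; exact hx.1
  · intro i h1 h2
    rw [List.getElem_ofFn]
    have h3 : i < nv x * nv x := by rw [hx.1]; exact h2
    have : ((Fin.divNat (⟨i, h3⟩ : Fin (nv x * nv x)) : ℕ) * nv x +
        (Fin.modNat (⟨i, h3⟩ : Fin (nv x * nv x)) : ℕ)) = i := by
      simp only [Fin.coe_divNat, Fin.coe_modNat]
      exact Nat.div_add_mod' i (nv x)
    have h4 : (graphOf x hx).Adj (Fin.divNat (⟨i, h3⟩ : Fin (nv x * nv x)))
        (Fin.modNat (⟨i, h3⟩ : Fin (nv x * nv x))) ↔ x[i] = true := by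
      show adjX x _ _ = true ↔ _
      unfold adjX
      rw [this, List.getD_eq_getElem _ _ h2]
    rw [Bool.eq_iff_iff, ← h4]
    simp

/-- Correctness of the reduction on strings. -/
theorem red_correct (x : List Bool) : x ∈ ThreeCol ↔ red x ∈ LexStable := by
  constructor
  · rintro ⟨n, G, rfl, hcol⟩
    obtain ⟨hn, hadj, hv⟩ := valid_encodeGraph G
    unfold red
    rw [if_pos hv]
    refine ⟨_, _, ?_, rfl, ?_⟩
    · unfold nv'; omega
    · rw [exists_stable_iff]
      · obtain ⟨C⟩ := hcol
        rcases Nat.eq_zero_or_pos n with h0 | h0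
        · refine ⟨fun _ => 0, fun u v huv => absurd (Fin.ext ?_) huv⟩
          have h1 := u.2
          have h2 := v.2
          unfold nv' at h1 h2
          omega
        · have hn' : nv' (encodeGraph G) = n := by unfold nv'; omega
          refine ⟨fun v => C ⟨v, by have := v.2; omega⟩, fun u v _ h => ?_⟩
          have := (hadj ⟨u, by have := u.2; omega⟩ ⟨v, by have := v.2; omega⟩).mp h
          exact C.valid this
      · intro u hu v hv'
        rcases Nat.eq_zero_or_pos n with h0 | h0
        · unfold nv' at hu hv'
          have : u = v := by omega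
          rw [this]
        · have hn' : nv' (encodeGraph G) = n := by unfold nv'; omega
          rw [Bool.eq_iff_iff]
          exact ⟨hv.2.2 u (by omega) v (by omega), hv.2.2 v (by omega) u (by omega)⟩
  · intro h
    by_cases hv : Valid x
    · unfold red at h
      rw [if_pos hv] at h
      obtain ⟨m, I, hm, hI, hst⟩ := h
      have hm' : 4 * nv' x = m := by
        have h1 := unary_inj hI
        rw [List.cons.injEq] at h1
        exact h1.1
      subst hm'
      have := encodeInst_inj hI
      subst this
      rw [exists_stable_iff] at hst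
      · obtain ⟨col, hcol⟩ := hst
        refine ⟨nv x, graphOf x hv, (encodeGraph_graphOf x hv).symm, ?_⟩
        have hle : nv x ≤ nv' x := by unfold nv'; omega
        refine ⟨SimpleGraph.Coloring.mk (fun v => col ⟨v, lt_of_lt_of_le v.2 hle⟩)
          (fun {u v} h => hcol _ _ ?_ h)⟩
        intro he
        have : u = v := by simpa [Fin.ext_iff] using he
        exact h.ne this
      · intro u hu v hv'
        rcases Nat.eq_zero_or_pos (nv x) with h0 | h0
        · unfold nv' at hu hv'
          have : u = v := by omega
          rw [this]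
        · have hn' : nv' x = nv x := by unfold nv'; omega
          rw [Bool.eq_iff_iff]
          exact ⟨hv.2.2 u (by omega) v (by omega), hv.2.2 v (by omega) u (by omega)⟩
    · unfold red at h
      rw [if_neg hv] at h
      obtain ⟨m, I, _, hI, _⟩ := h
      have := congrArg List.length hI
      unfold encodeInst at this
      rw [unary_cons] at this
      simp at this

/-! ### The reduction is computable in polynomial time -/

/-- The keys of the six families of orders. -/
def famKey (n : ℕ) (adj : ℕ → ℕ → Bool) (fam a b : ℕ) : ℕ :=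
  if fam % 2 = 0 then primKey n adj (fam / 2) a b else secKey n (fam / 2) a b

/-- The entries of the list of numbers encoding the instance. -/
def entry (x : List Bool) (k : ℕ) : ℕ :=
  if k = 0 then 4 * nv' x
  else rankOf (4 * nv' x) (famKey (nv' x) (adjX x) ((k - 1) / (4 * nv' x * (4 * nv' x)))
    ((k - 1) % (4 * nv' x * (4 * nv' x)) / (4 * nv' x)))
    ((k - 1) % (4 * nv' x * (4 * nv' x)) % (4 * nv' x))

open Classical in
/-- The number of entries. -/
noncomputable def entries (x : List Bool) : ℕ :=
  if Valid x then 1 + 6 * (4 * nv' x * (4 * nv' x)) else 0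

theorem rankTable_eq {n : ℕ} (key : ℕ → ℕ → ℕ) :
    rankTable (fun a b : Fin n => rankFin (key a) b) =
      (List.range (n * n)).map (fun k => rankOf n (key (k / n)) (k % n)) := by
  unfold rankTable
  apply List.ext_getElem
  · simp
  · intro i h1 h2
    rw [List.getElem_ofFn, List.getElem_map, List.getElem_range]
    rfl

theorem red_eq (x : List Bool) : red x = unary ((List.range (entries x)).map (entry x)) := by
  by_cases hv : Valid x
  · unfold red entries
    rw [if_pos hv, if_pos hv]
    unfold encodeInst
    congr 1
    set N := 4 * nv' x with hN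
    have hNpos : 0 < N := by unfold nv' at hN; omega
    have hM : 0 < N * N := Nat.mul_pos hNpos hNpos
    have hblock : ∀ (j : ℕ) (key : ℕ → ℕ → ℕ), famKey (nv' x) (adjX x) j = key →
        (List.range (N * N)).map (fun k => entry x (1 + (j * (N * N) + k))) =
          (List.range (N * N)).map (fun k => rankOf N (key (k / N)) (k % N)) := by
      intro j key hkey
      apply List.map_congr_left
      intro k hk
      rw [List.mem_range] at hk
      unfold entry
      rw [if_neg (by omega), show 1 + (j * (N * N) + k) - 1 = k + (N * N) * j by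
        rw [Nat.mul_comm j]; omega, ← hN, Nat.add_mul_div_left _ _ hM, Nat.add_mul_mod_self_left,
        Nat.div_eq_of_lt hk, Nat.mod_eq_of_lt hk, Nat.zero_add, hkey]
    have hsplit : (List.range (1 + 6 * (N * N))).map (entry x) = entry x 0 ::
        ((List.range (N * N)).map (fun k => entry x (1 + (0 * (N * N) + k))) ++
        ((List.range (N * N)).map (fun k => entry x (1 + (1 * (N * N) + k))) ++
        ((List.range (N * N)).map (fun k => entry x (1 + (2 * (N * N) + k))) ++
        ((List.range (N * N)).map (fun k => entry x (1 + (3 * (N * N) + k))) ++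
        ((List.range (N * N)).map (fun k => entry x (1 + (4 * (N * N) + k))) ++
        (List.range (N * N)).map (fun k => entry x (1 + (5 * (N * N) + k)))))))) := by
      rw [show 1 + 6 * (N * N) = 1 + (N * N + (N * N + (N * N + (N * N + (N * N + N * N))))) by
        ring]
      simp only [List.range_add, List.map_append, List.map_map, List.range_one, List.map_cons,
        List.cons_append, List.nil_append]
      congr 1
      simp only [← List.append_assoc]
      congr 1
      · congr 1
        · congr 1
          · congr 1
            · congr 1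
              · apply List.map_congr_left; intro k _; simp only [Function.comp]; congr 1; ring
              · apply List.map_congr_left; intro k _; simp only [Function.comp]; congr 1; ring
            · apply List.map_congr_left; intro k _; simp only [Function.comp]; congr 1; ring
          · apply List.map_congr_left; intro k _; simp only [Function.comp]; congr 1; ring
        · apply List.map_congr_left; intro k _; simp only [Function.comp]; congr 1; ring
      · apply List.map_congr_left; intro k _; simp only [Function.comp]; congr 1; ring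
    rw [hsplit, hblock 0 (primKey (nv' x) (adjX x) 0) (by funext a b; simp [famKey]),
      hblock 1 (secKey (nv' x) 0) (by funext a b; simp [famKey]),
      hblock 2 (primKey (nv' x) (adjX x) 1) (by funext a b; simp [famKey]),
      hblock 3 (secKey (nv' x) 1) (by funext a b; simp [famKey]),
      hblock 4 (primKey (nv' x) (adjX x) 2) (by funext a b; simp [famKey]),
      hblock 5 (secKey (nv' x) 2) (by funext a b; simp [famKey])]
    congr 1
    · rw [← rankTable_eq, ← rankTable_eq, ← rankTable_eq, ← rankTable_eq, ← rankTable_eq,
        ← rankTable_eq]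
      rfl
  · unfold red entries
    rw [if_neg hv, if_neg hv]
    rfl

section PF

variable {α : Type} [Ctx α]

theorem pf_nv : PF (fun (x : List Bool) (_ : α) => nv x) := PF.len.sqrt

theorem pf_nv' : PF (fun (x : List Bool) (_ : α) => nv' x) :=
  pf_nv.add ((PF.const 1).sub pf_nv)

theorem pd_adjX {A B : List Bool → α → ℕ} (hA : PF A) (hB : PF B) :
    PD (fun x a => adjX x (A x a) (B x a) = true) :=
  PD.bit ((hA.mul pf_nv).add hB)

theorem pd_valid : PD (fun (x : List Bool) (_ : α) => Valid x) := by
  unfold Valid
  refine (PD.eq (pf_nv.mul pf_nv) PF.len).and (PD.and ?_ ?_)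
  · exact PD.forall_lt pf_nv (pd_adjX PF.snd PF.snd).not
  · refine PD.forall_lt (P := fun x (p : α × ℕ) => ∀ v < nv x,
      (adjX x p.2 v = true → adjX x v p.2 = true)) pf_nv ?_
    refine PD.forall_lt (P := fun x (p : (α × ℕ) × ℕ) =>
      (adjX x p.1.2 p.2 = true → adjX x p.2 p.1.2 = true)) pf_nv ?_
    exact ((pd_adjX (A := fun _ (p : (α × ℕ) × ℕ) => p.1.2) (B := fun _ p => p.2)
      PF.snd.fst PF.snd).not.or (pd_adjX (A := fun _ (p : (α × ℕ) × ℕ) => p.2)
      (B := fun _ p => p.1.2) PF.snd PF.snd.fst)).congr fun x a => by tauto

theorem pf_pos {T I X : List Bool → α → ℕ} (hT : PF T) (hI : PF I) (hX : PF X) :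
    PF (fun x a => pos (T x a) (I x a) (X x a)) :=
  PF.getD _ ((((PF.const 20).mul hT).add ((PF.const 5).mul hI)).add hX)

theorem pf_sec {T I X : List Bool → α → ℕ} (hT : PF T) (hI : PF I) (hX : PF X) :
    PF (fun x a => sec (T x a) (I x a) (X x a)) :=
  PF.getD _ ((((PF.const 16).mul hT).add ((PF.const 4).mul hI)).add hX)

theorem pf_primKey {T A B : List Bool → α → ℕ} (hT : PF T) (hA : PF A) (hB : PF B) :
    PF (fun x a => primKey (nv' x) (adjX x) (T x a) (A x a) (B x a)) := by
  unfold primKey primCls
  have c4 : PF (fun (_ : List Bool) (_ : α) => 4) := PF.const 4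
  refine (((PF.const 4).mul pf_nv').mul ?_).add hB
  refine PF.ite (PD.eq (hA.div c4) (hB.div c4)) (pf_pos hT (hA.mod c4) (hB.mod c4)) ?_
  refine PF.ite ?_ (PF.const 3) (PF.const 5)
  exact ((PD.eq hT (PF.const 1)).not).and ((PD.eq (hA.mod c4) (hB.mod c4)).and
    ((PD.lt (hA.mod c4) (PF.const 3)).and (pd_adjX (hA.div c4) (hB.div c4))))

theorem pf_secKey {T A B : List Bool → α → ℕ} (hT : PF T) (hA : PF A) (hB : PF B) :
    PF (fun x a => secKey (nv' x) (T x a) (A x a) (B x a)) := by
  unfold secKey secCls
  have c4 : PF (fun (_ : List Bool) (_ : α) => 4) := PF.const 4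
  refine (((PF.const 4).mul pf_nv').mul ?_).add hB
  exact PF.ite (PD.eq (hA.div c4) (hB.div c4)) (pf_sec hT (hA.mod c4) (hB.mod c4)) (PF.const 4)

theorem pf_famKey {T A B : List Bool → α → ℕ} (hT : PF T) (hA : PF A) (hB : PF B) :
    PF (fun x a => famKey (nv' x) (adjX x) (T x a) (A x a) (B x a)) :=
  PF.ite (PD.eq (hT.mod (PF.const 2)) (PF.const 0)) (pf_primKey (hT.div (PF.const 2)) hA hB)
    (pf_secKey (hT.div (PF.const 2)) hA hB)

theorem pf_rank {T A B : List Bool → α → ℕ} (hT : PF T) (hA : PF A) (hB : PF B) :
    PF (fun x a => rankOf (4 * nv' x) (famKey (nv' x) (adjX x) (T x a) (A x a)) (B x a)) := by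
  unfold rankOf
  exact PF.count (P := fun x (p : α × ℕ) => famKey (nv' x) (adjX x) (T x p.1) (A x p.1) p.2 <
    famKey (nv' x) (adjX x) (T x p.1) (A x p.1) (B x p.1)) ((PF.const 4).mul pf_nv')
    (PD.lt (pf_famKey hT.fst hA.fst PF.snd) (pf_famKey hT.fst hA.fst hB.fst))

theorem pf_entry : PF (fun (x : List Bool) (p : α × ℕ) => entry x p.2) := by
  unfold entry
  have hN : PF (fun (x : List Bool) (_ : α × ℕ) => 4 * nv' x) := (PF.const 4).mul pf_nv'
  have hk : PF (fun (_ : List Bool) (p : α × ℕ) => p.2 - 1) := PF.snd.sub (PF.const 1)
  refine PF.ite (PD.eq PF.snd (PF.const 0)) hN ?_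
  exact pf_rank (hk.div (hN.mul hN)) ((hk.mod (hN.mul hN)).div hN) ((hk.mod (hN.mul hN)).mod hN)

theorem pf_entries : PF (fun (x : List Bool) (_ : α) => entries x) := by
  classical
  unfold entries
  have hN : PF (fun (x : List Bool) (_ : α) => 4 * nv' x) := (PF.const 4).mul pf_nv'
  exact PF.ite pd_valid ((PF.const 1).add ((PF.const 6).mul (hN.mul hN))) (PF.const 0)

end PF

/-- The reduction is computable in polynomial time. -/
theorem red_polyTime :
    Nonempty (Turing.TM2ComputableInPolyTime (id : List Bool → List Bool)
      (id : List Bool → List Bool) red) := by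
  have h := polyTime_nats (L := entries) (B := entry) pf_entries pf_entry
  have : red = fun x => unary ((List.range (entries x)).map (entry x)) := funext red_eq
  rw [this]
  exact h

end Pool.Agent.LexCyc
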